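import Pool.Agent.Helper88.BM.Defs

/-!
# Distance to the cube: assembly of the basis (block BM-D0)
-/

namespace Pool.Agent.BM

open Matrix Module

/-- Coordinates of a projection with respect to an orthonormal basis of the subspace. -/
theorem proj_coords {n m : ℕ} (V : Submodule ℝ (EuclideanSpace ℝ (Fin n)))
    (b : OrthonormalBasis (Fin m) ℝ V) (z : EuclideanSpace ℝ (Fin n)) :
    V.starProjection z = ∑ j, (inner ℝ (b j : EuclideanSpace ℝ (Fin n)) z) •
      (b j : EuclideanSpace ℝ (Fin n)) ∧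
    ∑ j, |inner ℝ (b j : EuclideanSpace ℝ (Fin n)) z| ≤
      Real.sqrt m * ‖V.starProjection z‖ := by
  constructor
  · rw [Submodule.starProjection_apply, b.orthogonalProjectionOnto_apply_eq_sum]
    simp
  · have h1 : ∑ j, (inner ℝ (b j : EuclideanSpace ℝ (Fin n)) z) ^ 2 =
        ‖V.starProjection z‖ ^ 2 := by
      have h := b.sum_sq_inner_right (V.orthogonalProjectionOnto z)
      rw [Submodule.starProjection_apply]
      refine Eq.trans ?_ h
      refine Finset.sum_congr rfl fun j _ => ?_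
      rw [Submodule.inner_orthogonalProjectionOnto_eq_of_mem_left]
    have h2 : (∑ j, |inner ℝ (b j : EuclideanSpace ℝ (Fin n)) z|) ^ 2 ≤
        m * ‖V.starProjection z‖ ^ 2 := by
      have h := sq_sum_le_card_mul_sum_sq (s := (Finset.univ : Finset (Fin m)))
        (f := fun j => |inner ℝ (b j : EuclideanSpace ℝ (Fin n)) z|)
      simp only [sq_abs, Finset.card_univ, Fintype.card_fin] at h
      rw [h1] at h
      exact h
    have h3 : 0 ≤ ∑ j, |inner ℝ (b j : EuclideanSpace ℝ (Fin n)) z| :=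
      Finset.sum_nonneg fun j _ => abs_nonneg _
    calc ∑ j, |inner ℝ (b j : EuclideanSpace ℝ (Fin n)) z|
        = Real.sqrt ((∑ j, |inner ℝ (b j : EuclideanSpace ℝ (Fin n)) z|) ^ 2) :=
          (Real.sqrt_sq h3).symm
      _ ≤ Real.sqrt (m * ‖V.starProjection z‖ ^ 2) := Real.sqrt_le_sqrt h2
      _ = Real.sqrt m * ‖V.starProjection z‖ := by
          rw [Real.sqrt_mul (by positivity), Real.sqrt_sq (norm_nonneg _)]

/-- The decomposition of a vector along `U`, `Uᗮ ⊓ W`, `Wᗮ`. -/
theorem three_decomp {n : ℕ} (U W : Submodule ℝ (EuclideanSpace ℝ (Fin n))) (hUW : U ≤ W)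
    (z : EuclideanSpace ℝ (Fin n)) :
    z = U.starProjection z + Wᗮ.starProjection z + (Uᗮ ⊓ W).starProjection z := by
  have hg : (Uᗮ ⊓ W).starProjection z = W.starProjection z - U.starProjection z := by
    refine Submodule.eq_starProjection_of_mem_orthogonal ?_ ?_
    · refine ⟨?_, W.sub_mem (Submodule.starProjection_apply_mem _ _)
        (hUW (Submodule.starProjection_apply_mem _ _))⟩
      have h1 : z - U.starProjection z ∈ Uᗮ := Submodule.sub_starProjection_mem_orthogonal z
      have h2 : z - W.starProjection z ∈ Uᗮ :=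
        Submodule.orthogonal_le hUW (Submodule.sub_starProjection_mem_orthogonal z)
      have h3 := Uᗮ.sub_mem h1 h2
      have h4 : z - U.starProjection z - (z - W.starProjection z) =
          W.starProjection z - U.starProjection z := by abel
      rwa [h4] at h3
    · have h5 : z - (W.starProjection z - U.starProjection z) =
          U.starProjection z + (z - W.starProjection z) := by abel
      rw [h5]
      refine Submodule.add_mem _ ?_ ?_
      · exact Submodule.orthogonal_le inf_le_left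
          (U.le_orthogonal_orthogonal (Submodule.starProjection_apply_mem _ _))
      · exact Submodule.orthogonal_le inf_le_right
          (Submodule.sub_starProjection_mem_orthogonal z)
  rw [hg, Submodule.starProjection_orthogonal_val]
  abel

/-- BM-D0, with the ball property as a hypothesis. -/
theorem assembly_of_ball {n : ℕ} {B : Set (EuclideanSpace ℝ (Fin n))} (hB : IsPos n B)
    (hball : ∀ f : EuclideanSpace ℝ (Fin n), n * ‖f‖ ^ 2 ≤ 1 → f ∈ B)
    {k : ℕ} {x : Fin k → EuclideanSpace ℝ (Fin n)} (hxB : ∀ i, x i ∈ B)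
    (hli : LinearIndependent ℝ x) (S : Finset (Fin k)) (σ ρ : ℝ) (hσ : 0 < σ) (_hρ : 0 ≤ ρ)
    (hS : ∀ t : Fin k → ℝ, (∀ i ∉ S, t i = 0) →
      σ * (t ⬝ᵥ t) ≤ t ⬝ᵥ ((gram ℝ x) *ᵥ t))
    (hF : ∀ z ∈ B, ‖(Submodule.span ℝ (Set.range x))ᗮ.starProjection z‖ ^ 2 ≤ ρ) :
    ∃ y : Fin n → EuclideanSpace ℝ (Fin n), (∀ i, y i ∈ B) ∧
      ∀ z ∈ B, ∃ c : Fin n → ℝ, z = ∑ i, c i • y i ∧
        ∑ i, |c i| ≤ Real.sqrt (k / σ) + Real.sqrt (n * (n - k : ℕ) * ρ) +
          Real.sqrt (n * Sᶜ.card) := by
  classical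
  rcases Nat.eq_zero_or_pos n with hn | hn
  · subst hn
    refine ⟨fun i => i.elim0, fun i => i.elim0, fun z hz => ⟨fun i => i.elim0, ?_, ?_⟩⟩
    · exact Subsingleton.elim _ _
    · simp only [Finset.univ_eq_empty, Finset.sum_empty]
      positivity
  set W := Submodule.span ℝ (Set.range x) with hW
  set xS : S → EuclideanSpace ℝ (Fin n) := fun i => x i with hxS
  set U := Submodule.span ℝ (Set.range xS) with hU
  have hUW : U ≤ W := by
    refine Submodule.span_mono ?_
    rintro _ ⟨i, rfl⟩
    exact ⟨i, rfl⟩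
  have hliS : LinearIndependent ℝ xS := hli.comp _ Subtype.val_injective
  have hdW : finrank ℝ W = k := by
    rw [hW, finrank_span_eq_card hli, Fintype.card_fin]
  have hdU : finrank ℝ U = S.card := by
    rw [hU, finrank_span_eq_card hliS, Fintype.card_coe]
  have hdF : finrank ℝ Wᗮ = n - k := by
    have h := W.finrank_add_finrank_orthogonal
    rw [hdW, finrank_euclideanSpace_fin] at h
    omega
  have hkn : k ≤ n := by
    have h := W.finrank_add_finrank_orthogonal
    rw [hdW, finrank_euclideanSpace_fin] at h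
    omega
  have hSk : S.card ≤ k := by
    have h := Finset.card_le_univ S
    simpa using h
  have hScard : Sᶜ.card = k - S.card := by
    rw [Finset.card_compl, Fintype.card_fin]
  have hdG : finrank ℝ (Uᗮ ⊓ W : Submodule ℝ (EuclideanSpace ℝ (Fin n))) = Sᶜ.card := by
    have h := Submodule.finrank_add_inf_finrank_orthogonal hUW
    rw [hdW, hdU] at h
    omega
  let bF : OrthonormalBasis (Fin (n - k)) ℝ Wᗮ :=
    (stdOrthonormalBasis ℝ Wᗮ).reindex (finCongr hdF)
  let bG : OrthonormalBasis (Fin Sᶜ.card) ℝ (Uᗮ ⊓ W : Submodule ℝ (EuclideanSpace ℝ (Fin n))) :=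
    (stdOrthonormalBasis ℝ (Uᗮ ⊓ W : Submodule ℝ (EuclideanSpace ℝ (Fin n)))).reindex
      (finCongr hdG)
  have hcard : Fintype.card (S ⊕ (Fin (n - k) ⊕ Fin Sᶜ.card)) = n := by
    simp only [Fintype.card_sum, Fintype.card_coe, Fintype.card_fin]
    omega
  let e : Fin n ≃ S ⊕ (Fin (n - k) ⊕ Fin Sᶜ.card) := (Fintype.equivFinOfCardEq hcard).symm
  have hn' : (0 : ℝ) < n := by exact_mod_cast hn
  set r := Real.sqrt n with hr
  have hr0 : 0 < r := Real.sqrt_pos.mpr hn'
  have hrr : r ^ 2 = n := Real.sq_sqrt hn'.le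
  have hunit : ∀ u : EuclideanSpace ℝ (Fin n), ‖u‖ = 1 → r⁻¹ • u ∈ B := by
    intro u hu
    refine hball _ ?_
    rw [norm_smul, hu, mul_one, Real.norm_eq_abs, abs_of_pos (inv_pos.mpr hr0), inv_pow, hrr,
      mul_inv_cancel₀ hn'.ne']
  let yy : S ⊕ (Fin (n - k) ⊕ Fin Sᶜ.card) → EuclideanSpace ℝ (Fin n) :=
    Sum.elim xS (Sum.elim (fun j => r⁻¹ • (bF j : EuclideanSpace ℝ (Fin n)))
      (fun j => r⁻¹ • (bG j : EuclideanSpace ℝ (Fin n))))
  have hyy : ∀ s, yy s ∈ B := by
    rintro (s | s | s)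
    · exact hxB _
    · refine hunit _ ?_
      exact bF.orthonormal.1 s
    · refine hunit _ ?_
      exact bG.orthonormal.1 s
  refine ⟨fun i => yy (e i), fun i => hyy _, fun z hz => ?_⟩
  · obtain ⟨hF1, hF2⟩ := proj_coords Wᗮ bF z
    obtain ⟨hG1, hG2⟩ := proj_coords (Uᗮ ⊓ W) bG z
    have hPU : U.starProjection z ∈ U := Submodule.starProjection_apply_mem _ _
    rw [hU, Submodule.mem_span_range_iff_exists_fun] at hPU
    obtain ⟨a, ha⟩ := hPU
    let cc : S ⊕ (Fin (n - k) ⊕ Fin Sᶜ.card) → ℝ :=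
      Sum.elim a (Sum.elim (fun j => r * inner ℝ (bF j : EuclideanSpace ℝ (Fin n)) z)
        (fun j => r * inner ℝ (bG j : EuclideanSpace ℝ (Fin n)) z))
    refine ⟨fun i => cc (e i), ?_, ?_⟩
    · have h1 : ∑ i, cc (e i) • yy (e i) = ∑ s, cc s • yy s :=
        Equiv.sum_comp e (fun s => cc s • yy s)
      rw [h1, Fintype.sum_sum_type, Fintype.sum_sum_type]
      simp only [cc, yy, Sum.elim_inl, Sum.elim_inr]
      have h2 : ∀ (s : ℝ) (u : EuclideanSpace ℝ (Fin n)), (r * s) • r⁻¹ • u = s • u := by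
        intro s u
        rw [smul_smul]
        congr 1
        field_simp
      simp only [h2]
      rw [ha, ← hF1, ← hG1, ← add_assoc]
      exact three_decomp U W hUW z
    · have h1 : ∑ i, |cc (e i)| = ∑ s, |cc s| := Equiv.sum_comp e (fun s => |cc s|)
      rw [h1, Fintype.sum_sum_type, Fintype.sum_sum_type]
      simp only [cc, Sum.elim_inl, Sum.elim_inr, abs_mul, abs_of_pos hr0, ← Finset.mul_sum]
      rw [← add_assoc]
      refine add_le_add (add_le_add ?_ ?_) ?_
      · -- the part of the `x`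
        let t : Fin k → ℝ := fun i => if h : i ∈ S then a ⟨i, h⟩ else 0
        have ht0 : ∀ i ∉ S, t i = 0 := fun i hi => by simp [t, hi]
        have hsum : ∀ g : Fin k → EuclideanSpace ℝ (Fin n), ∑ i, t i • g i =
            ∑ s : S, a s • g s := by
          intro g
          rw [← Finset.sum_subset (Finset.subset_univ S)
            (fun i _ hi => by rw [ht0 i hi, zero_smul]),
            ← Finset.sum_coe_sort S (fun i => t i • g i)]
          refine Finset.sum_congr rfl fun s _ => ?_
          simp [t]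
        have hnorm : t ⬝ᵥ ((gram ℝ x) *ᵥ t) = ‖U.starProjection z‖ ^ 2 := by
          have h := star_dotProduct_gram_mulVec (𝕜 := ℝ) x t t
          rw [hsum x] at h
          have h3 : ∑ s : S, a s • x s = U.starProjection z := ha
          rw [h3, real_inner_self_eq_norm_sq] at h
          simpa using h
        have hle1 : ‖U.starProjection z‖ ^ 2 ≤ 1 := by
          have h4 : ‖U.starProjection z‖ ≤ ‖z‖ := Submodule.norm_starProjection_apply_le _ _
          have h5 := hB.le_one z hz
          have h6 := norm_nonneg (U.starProjection z)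
          nlinarith
        have hσt : σ * (t ⬝ᵥ t) ≤ 1 := by
          have h := hS t ht0
          rw [hnorm] at h
          exact h.trans hle1
        have htt : t ⬝ᵥ t = ∑ i, |t i| ^ 2 := by
          simp only [dotProduct, sq_abs]
          exact Finset.sum_congr rfl fun i _ => by ring
        have habs : ∑ s : S, |a s| = ∑ i, |t i| := by
          rw [← Finset.sum_subset (Finset.subset_univ S)
            (fun i _ hi => by rw [ht0 i hi, abs_zero]),
            ← Finset.sum_coe_sort S (fun i => |t i|)]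
          refine Finset.sum_congr rfl fun s _ => ?_
          simp [t]
        have hsq : (∑ i, |t i|) ^ 2 ≤ k / σ := by
          have h := sq_sum_le_card_mul_sum_sq (s := (Finset.univ : Finset (Fin k)))
            (f := fun i => |t i|)
          rw [← htt] at h
          simp only [Finset.card_univ, Fintype.card_fin] at h
          refine h.trans ?_
          rw [le_div_iff₀ hσ]
          have hk0 : (0 : ℝ) ≤ k := Nat.cast_nonneg k
          nlinarith
        rw [habs]
        exact Real.le_sqrt_of_sq_le hsq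
      · refine (mul_le_mul_of_nonneg_left hF2 hr0.le).trans ?_
        have h := hF z hz
        rw [mul_assoc, Real.sqrt_mul hn'.le, Real.sqrt_mul (Nat.cast_nonneg _)]
        refine mul_le_mul_of_nonneg_left ?_ hr0.le
        refine mul_le_mul_of_nonneg_left ?_ (Real.sqrt_nonneg _)
        exact Real.le_sqrt_of_sq_le h
      · refine (mul_le_mul_of_nonneg_left hG2 hr0.le).trans ?_
        rw [Real.sqrt_mul hn'.le]
        refine mul_le_mul_of_nonneg_left ?_ hr0.le
        have h4 : ‖(Uᗮ ⊓ W).starProjection z‖ ≤ ‖z‖ :=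
          Submodule.norm_starProjection_apply_le _ _
        have h5 := hB.le_one z hz
        have h6 : ‖(Uᗮ ⊓ W).starProjection z‖ ≤ 1 := h4.trans h5
        calc Real.sqrt (Sᶜ.card : ℝ) * ‖(Uᗮ ⊓ W).starProjection z‖
            ≤ Real.sqrt (Sᶜ.card : ℝ) * 1 :=
              mul_le_mul_of_nonneg_left h6 (Real.sqrt_nonneg _)
          _ = Real.sqrt (Sᶜ.card : ℝ) := mul_one _

/-- BM-D1, with the ball property as a hypothesis. -/
theorem assembly_trivial_of_ball {n : ℕ} {B : Set (EuclideanSpace ℝ (Fin n))} (hB : IsPos n B)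
    (hball : ∀ f : EuclideanSpace ℝ (Fin n), n * ‖f‖ ^ 2 ≤ 1 → f ∈ B) :
    ∃ y : Fin n → EuclideanSpace ℝ (Fin n), (∀ i, y i ∈ B) ∧
      ∀ z ∈ B, ∃ c : Fin n → ℝ, z = ∑ i, c i • y i ∧ ∑ i, |c i| ≤ n := by
  obtain ⟨y, hy, h⟩ := assembly_of_ball hB hball (k := 0) (x := fun i => i.elim0)
    (fun i => i.elim0) (by
      rw [Fintype.linearIndependent_iff]
      intro g _ i
      exact i.elim0) ∅ 1 1 one_pos zero_le_one
    (fun t _ => by simp) (fun z hz => by
      have h4 : ‖(Submodule.span ℝ (Set.range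
          (fun i : Fin 0 => (i.elim0 : EuclideanSpace ℝ (Fin n)))))ᗮ.starProjection z‖ ≤ ‖z‖ :=
        Submodule.norm_starProjection_apply_le _ _
      have h5 := hB.le_one z hz
      exact pow_le_one₀ (norm_nonneg _) (h4.trans h5))
  refine ⟨y, hy, fun z hz => ?_⟩
  obtain ⟨c, hc1, hc2⟩ := h z hz
  refine ⟨c, hc1, hc2.trans ?_⟩
  simp only [Nat.cast_zero, zero_div, Real.sqrt_zero, zero_add, Nat.sub_zero, mul_one]
  have h0 : (((∅ : Finset (Fin 0))ᶜ).card : ℝ) = 0 := by simp
  rw [h0, mul_zero, Real.sqrt_zero, add_zero, Real.sqrt_mul_self (Nat.cast_nonneg n)]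

end Pool.Agent.BM
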