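import Pool.Agent.Helper88.BM.Defs

/-!
# Distance to the cube: bodies in position contain a ball (block BM-B3), the trivial bound

A body in position contains the Euclidean ball of radius `n ^ (-1/2)`, and the standard basis
divided by `sqrt n` shows that the distance to the cube is at most `n`.
-/

namespace Pool.Agent.BM

open Matrix Module

/-- BM-B3: a body in position contains the Euclidean ball of radius `n ^ (-1/2)`. -/
theorem IsPos.ball {n : ℕ} {B : Set (EuclideanSpace ℝ (Fin n))} (hB : IsPos n B)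
    (f : EuclideanSpace ℝ (Fin n)) (hf : n * ‖f‖ ^ 2 ≤ 1) : f ∈ B := by
  by_contra hfB
  obtain ⟨φ, u, h1, h2⟩ :=
    geometric_hahn_banach_closed_point hB.convex hB.compact.isClosed hfB
  set w : EuclideanSpace ℝ (Fin n) := (InnerProductSpace.toDual ℝ _).symm φ with hw
  have hφ : ∀ z, φ z = inner ℝ w z := by
    intro z
    rw [hw, InnerProductSpace.toDual_symm_apply]
  have hw0 : w ≠ 0 := by
    intro h0
    obtain ⟨a, ha⟩ := hB.nonempty
    have h3 := h1 a ha
    rw [hφ, h0, inner_zero_left] at h3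
    rw [hφ, h0, inner_zero_left] at h2
    linarith
  have hwn : 0 < ‖w‖ := norm_pos_iff.2 hw0
  obtain ⟨z, hz, hwz⟩ := hB.width (ℝ ∙ w)
  set b : ℝ := inner ℝ w z with hb
  have hP : ‖(ℝ ∙ w).starProjection z‖ ^ 2 * ‖w‖ ^ 2 = b ^ 2 := by
    rw [Submodule.starProjection_singleton, norm_smul, norm_div, Real.norm_eq_abs, ← hb]
    simp only [RCLike.ofReal_real_eq_id, id_eq, norm_pow, norm_norm]
    rw [mul_pow, div_pow, sq_abs]
    field_simp
  rw [finrank_span_singleton hw0, Nat.cast_one] at hwz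
  have hkey : ‖w‖ ^ 2 ≤ n * b ^ 2 := by
    rw [← hP]
    have h8 : 0 ≤ ‖w‖ ^ 2 := by positivity
    have h9 := mul_le_mul_of_nonneg_right hwz h8
    linarith
  -- the upper bound for the functional on `B`
  have hlt : ∀ a ∈ B, inner ℝ w a < inner ℝ w f := by
    intro a ha
    have h3 := h1 a ha
    rw [hφ] at h3 h2
    linarith
  have habs : |b| < inner ℝ w f := by
    rcases abs_cases b with ⟨h, -⟩ | ⟨h, -⟩
    · rw [h]; exact hlt z hz
    · rw [h, hb, ← inner_neg_right]; exact hlt _ (hB.symm z hz)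
  have hcs : inner ℝ w f ≤ ‖w‖ * ‖f‖ := real_inner_le_norm w f
  have h5 : b ^ 2 < (‖w‖ * ‖f‖) ^ 2 := by
    rw [← sq_abs]
    exact pow_lt_pow_left₀ (habs.trans_le hcs) (abs_nonneg b) (by norm_num)
  have hn0 : (0 : ℝ) < n := by
    rcases Nat.eq_zero_or_pos n with h | h
    · subst h
      exact absurd (Subsingleton.elim w 0) hw0
    · exact_mod_cast h
  have h6 : (n : ℝ) * b ^ 2 < ‖w‖ ^ 2 * (n * ‖f‖ ^ 2) := by
    calc (n : ℝ) * b ^ 2 < n * (‖w‖ * ‖f‖) ^ 2 := mul_lt_mul_of_pos_left h5 hn0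
      _ = ‖w‖ ^ 2 * (n * ‖f‖ ^ 2) := by ring
  have h7 : ‖w‖ ^ 2 * (n * ‖f‖ ^ 2) ≤ ‖w‖ ^ 2 * 1 :=
    mul_le_mul_of_nonneg_left hf (by positivity)
  linarith

/-- BM-D1: the trivial bound. -/
theorem assembly_trivial {n : ℕ} {B : Set (EuclideanSpace ℝ (Fin n))} (hB : IsPos n B) :
    ∃ y : Fin n → EuclideanSpace ℝ (Fin n), (∀ i, y i ∈ B) ∧
      ∀ z ∈ B, ∃ c : Fin n → ℝ, z = ∑ i, c i • y i ∧ ∑ i, |c i| ≤ n := by
  have hs : Real.sqrt n * Real.sqrt n = n := Real.mul_self_sqrt (Nat.cast_nonneg n)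
  refine ⟨fun i => (Real.sqrt n)⁻¹ • EuclideanSpace.basisFun (Fin n) ℝ i, ?_, ?_⟩
  · intro i
    refine hB.ball _ ?_
    have hn0 : (0 : ℝ) < n := by
      have := i.pos
      exact_mod_cast this
    rw [norm_smul, OrthonormalBasis.norm_eq_one, mul_one, norm_inv, Real.norm_eq_abs,
      inv_pow, sq_abs, Real.sq_sqrt hn0.le, mul_inv_cancel₀ hn0.ne']
  · intro z hz
    refine ⟨fun i => Real.sqrt n * z i, ?_, ?_⟩
    · ext j
      have hn0 : (0 : ℝ) < n := by
        have := j.pos
        exact_mod_cast this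
      have hsn : Real.sqrt n ≠ 0 := (Real.sqrt_pos.2 hn0).ne'
      simp only [WithLp.ofLp_sum, WithLp.ofLp_smul, Finset.sum_apply, Pi.smul_apply, smul_eq_mul,
        EuclideanSpace.basisFun_apply, PiLp.single_apply]
      rw [Finset.sum_eq_single j]
      · simp only [if_true]
        field_simp
      · intro b _ hb
        rw [if_neg (Ne.symm hb)]
        ring
      · intro h
        exact absurd (Finset.mem_univ j) h
    · have h1 : ∑ i, |Real.sqrt n * z i| = Real.sqrt n * ∑ i, |z i| := by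
        rw [Finset.mul_sum]
        refine Finset.sum_congr rfl fun i _ => ?_
        rw [abs_mul, abs_of_nonneg (Real.sqrt_nonneg _)]
      have h2 : (∑ i, |z i|) ^ 2 ≤ n * ∑ i, |z i| ^ 2 := by
        have := sq_sum_le_card_mul_sum_sq (s := (Finset.univ : Finset (Fin n)))
          (f := fun i => |z i|)
        simpa using this
      have h3 : ∑ i, |z i| ^ 2 = ‖z‖ ^ 2 := by
        rw [EuclideanSpace.norm_sq_eq]
        rfl
      have h4 : ‖z‖ ^ 2 ≤ 1 := by
        have := hB.le_one z hz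
        have h0 := norm_nonneg z
        nlinarith
      have h5 : ∑ i, |z i| ≤ Real.sqrt n := by
        refine Real.le_sqrt_of_sq_le ?_
        rw [h3] at h2
        have : (n : ℝ) * ‖z‖ ^ 2 ≤ n * 1 := mul_le_mul_of_nonneg_left h4 (Nat.cast_nonneg n)
        linarith
      rw [h1]
      calc Real.sqrt n * ∑ i, |z i| ≤ Real.sqrt n * Real.sqrt n :=
            mul_le_mul_of_nonneg_left h5 (Real.sqrt_nonneg _)
        _ = n := hs

end Pool.Agent.BM
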