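import Mathlib

/-!
# Distance to the cube: definitions

`IsPos n B`: the symmetric convex compact set `B` (the unit ball of the dual space) is in the
position of minimal circumscribed volume, written as the two consequences which are used:
`B` lies in the Euclidean unit ball, and every projection of `B` onto a subspace `F` contains a
vector of squared length at least `dim F / n`.

`IsMaxVol B k x`: the `k` vectors `x` of `B` have the largest Gram determinant.
-/

namespace Pool.Agent.BM

open Matrix Module

/-- `B` is compact, convex, symmetric, nonempty, is contained in the Euclidean unit ball and every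
projection onto a subspace `F` contains a vector of squared length at least `dim F / n`. -/
structure IsPos (n : ℕ) (B : Set (EuclideanSpace ℝ (Fin n))) : Prop where
  compact : IsCompact B
  convex : Convex ℝ B
  nonempty : B.Nonempty
  symm : ∀ z ∈ B, -z ∈ B
  le_one : ∀ z ∈ B, ‖z‖ ≤ 1
  width : ∀ F : Submodule ℝ (EuclideanSpace ℝ (Fin n)), ∃ z ∈ B,
    (finrank ℝ F : ℝ) ≤ n * ‖F.starProjection z‖ ^ 2

/-- `x` is a `k`-tuple of elements of `B` with the largest Gram determinant. -/
structure IsMaxVol {n : ℕ} (B : Set (EuclideanSpace ℝ (Fin n))) (k : ℕ)
    (x : Fin k → EuclideanSpace ℝ (Fin n)) : Prop where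
  mem : ∀ i, x i ∈ B
  max : ∀ y : Fin k → EuclideanSpace ℝ (Fin n), (∀ i, y i ∈ B) →
    (gram ℝ y).det ≤ (gram ℝ x).det

end Pool.Agent.BM
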