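import Pool.Agent.Helper88.BM.Defs

/-!
# Distance to the cube: tuples of maximal Gram determinant

Existence by compactness, positivity from the width condition.
-/

namespace Pool.Agent.BM

open Matrix Module

/-- BM-C1a -/
theorem IsPos.exists_maxVol {n : ℕ} {B : Set (EuclideanSpace ℝ (Fin n))} (hB : IsPos n B)
    (k : ℕ) : ∃ x : Fin k → EuclideanSpace ℝ (Fin n), IsMaxVol B k x := by
  have hcomp : IsCompact (Set.univ.pi fun _ : Fin k => B) :=
    isCompact_univ_pi fun _ => hB.compact
  obtain ⟨b, hb⟩ := hB.nonempty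
  have hne : (Set.univ.pi fun _ : Fin k => B).Nonempty := ⟨fun _ => b, fun _ _ => hb⟩
  have hcont : Continuous fun y : Fin k → EuclideanSpace ℝ (Fin n) => (gram ℝ y).det := by
    refine Continuous.matrix_det ?_
    refine continuous_matrix fun i j => ?_
    simp only [gram_apply]
    fun_prop
  obtain ⟨x, hx, hmax⟩ := hcomp.exists_isMaxOn hne hcont.continuousOn
  exact ⟨x, fun i => hx i (Set.mem_univ i), fun y hy => hmax fun i _ => hy i⟩

/-- a body in position contains linearly independent tuples of every length up to `n`. -/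
theorem IsPos.exists_linearIndependent {n : ℕ} {B : Set (EuclideanSpace ℝ (Fin n))}
    (hB : IsPos n B) (k : ℕ) (hk : k ≤ n) :
    ∃ x : Fin k → EuclideanSpace ℝ (Fin n), (∀ i, x i ∈ B) ∧ LinearIndependent ℝ x := by
  induction k with
  | zero => exact ⟨Fin.elim0, fun i => i.elim0, linearIndependent_empty_type⟩
  | succ k ih =>
    obtain ⟨x, hx, hli⟩ := ih (by omega)
    have h1 : finrank ℝ (Submodule.span ℝ (Set.range x)) = k := by
      rw [finrank_span_eq_card hli, Fintype.card_fin]
    have h2 := Submodule.finrank_add_finrank_orthogonal (Submodule.span ℝ (Set.range x))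
    rw [h1, finrank_euclideanSpace_fin] at h2
    obtain ⟨z, hz, hw⟩ := hB.width (Submodule.span ℝ (Set.range x))ᗮ
    have hz0 : z ∉ Submodule.span ℝ (Set.range x) := by
      intro hmem
      have h3 : (Submodule.span ℝ (Set.range x))ᗮ.starProjection z = 0 := by
        rw [Submodule.starProjection_apply_eq_zero_iff]
        rwa [Submodule.orthogonal_orthogonal]
      rw [h3] at hw
      have h4 : (finrank ℝ (Submodule.span ℝ (Set.range x))ᗮ : ℝ) ≤ 0 := by
        simpa using hw
      have h5 : (1 : ℝ) ≤ finrank ℝ (Submodule.span ℝ (Set.range x))ᗮ := by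
        exact_mod_cast (by omega : 1 ≤ finrank ℝ (Submodule.span ℝ (Set.range x))ᗮ)
      linarith
    refine ⟨Fin.cons z x, fun i => ?_, linearIndependent_finCons.2 ⟨hli, hz0⟩⟩
    refine Fin.cases ?_ (fun j => ?_) i
    · simpa using hz
    · simpa using hx j

/-- BM-C1b -/
theorem IsMaxVol.posDef {n : ℕ} {B : Set (EuclideanSpace ℝ (Fin n))} (hB : IsPos n B)
    {k : ℕ} (hk : k ≤ n) {x : Fin k → EuclideanSpace ℝ (Fin n)} (hx : IsMaxVol B k x) :
    (gram ℝ x).PosDef := by
  obtain ⟨y, hy, hli⟩ := hB.exists_linearIndependent k hk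
  have h1 : 0 < (gram ℝ y).det := (posDef_gram_of_linearIndependent hli).det_pos
  have h2 := hx.max y hy
  rw [(posSemidef_gram ℝ x).posDef_iff_det_ne_zero]
  linarith

end Pool.Agent.BM
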