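import Pool.Agent.Helper88.BM.Defs

/-!
# Every symmetric convex body has a linear image in the position `IsPos`
-/

namespace Pool.Agent.BM

open Matrix Module Metric

namespace Position

/-- For an endomorphism `S` with positive trace, `det (1 + sS) > 1` for some small `s > 0`. -/
lemma det_gt_one {V : Type} [AddCommGroup V] [Module ℝ V] [FiniteDimensional ℝ V]
    (S : V →ₗ[ℝ] V) (hS : 0 < LinearMap.trace ℝ V S) (s₀ : ℝ) (hs₀ : 0 < s₀) :
    ∃ s, 0 < s ∧ s ≤ s₀ ∧ 1 < LinearMap.det (1 + s • S) := by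
  classical
  set b := Module.finBasis ℝ V with hb
  set M := LinearMap.toMatrix b b S with hM
  have htr : M.trace = LinearMap.trace ℝ V S := (LinearMap.trace_eq_matrix_trace ℝ b S).symm
  have hdet : ∀ s : ℝ, LinearMap.det (1 + s • S) = (1 + s • M).det := by
    intro s
    rw [← LinearMap.det_toMatrix b, map_add, map_smul, LinearMap.toMatrix_one]
  set q : Polynomial ℝ := (det (1 + (Polynomial.X : Polynomial ℝ) • M.map Polynomial.C)).divX.divX
    with hq
  have hc : Continuous fun s : ℝ => M.trace + q.eval s * s :=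
    continuous_const.add (q.continuous.mul continuous_id)
  have h0 : (0 : ℝ) < M.trace + q.eval 0 * 0 := by rw [mul_zero, add_zero, htr]; exact hS
  have hev : ∀ᶠ s in nhds (0 : ℝ), 0 < M.trace + q.eval s * s :=
    hc.continuousAt.eventually (lt_mem_nhds h0)
  obtain ⟨δ, hδ, hball⟩ := Metric.eventually_nhds_iff.mp hev
  refine ⟨min (δ / 2) s₀, lt_min (by linarith) hs₀, min_le_right _ _, ?_⟩
  set s := min (δ / 2) s₀ with hs
  have hs0 : 0 < s := lt_min (by linarith) hs₀
  have hsδ : dist s 0 < δ := by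
    rw [Real.dist_eq, sub_zero, abs_of_pos hs0]
    exact lt_of_le_of_lt (min_le_left _ _) (by linarith)
  have h1 := hball hsδ
  rw [hdet, Matrix.det_one_add_smul]
  have h2 : M.trace * s + q.eval s * s ^ 2 = s * (M.trace + q.eval s * s) := by ring
  have h3 : 0 < s * (M.trace + q.eval s * s) := mul_pos hs0 h1
  linarith


/-- The position for a general Euclidean space. -/
lemma exists_position_aux {E : Type} [NormedAddCommGroup E] [InnerProductSpace ℝ E]
    [FiniteDimensional ℝ E] (n : ℕ) (hn : 0 < n) (hE : finrank ℝ E = n) (K : Set E)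
    (hK : IsCompact K) (hconv : Convex ℝ K) (hsymm : ∀ z ∈ K, -z ∈ K)
    (hint : (0 : E) ∈ interior K) :
    ∃ A : E ≃ₗ[ℝ] E, IsCompact ((fun z => A z) '' K) ∧ Convex ℝ ((fun z => A z) '' K) ∧
      ((fun z => A z) '' K).Nonempty ∧ (∀ z ∈ (fun z => A z) '' K, -z ∈ (fun z => A z) '' K) ∧
      (∀ z ∈ (fun z => A z) '' K, ‖z‖ ≤ 1) ∧
      ∀ F : Submodule ℝ E, ∃ z ∈ (fun z => A z) '' K,
        (finrank ℝ F : ℝ) ≤ n * ‖F.starProjection z‖ ^ 2 := by
  classical
  -- radii
  obtain ⟨r, hr, hrK⟩ : ∃ r > 0, ball (0 : E) r ⊆ K := by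
    obtain ⟨r, hr, h⟩ := Metric.isOpen_iff.mp isOpen_interior 0 hint
    exact ⟨r, hr, h.trans interior_subset⟩
  obtain ⟨R, hR⟩ : ∃ R, ∀ z ∈ K, ‖z‖ ≤ R := hK.isBounded.exists_norm_le
  have h0K : (0 : E) ∈ K := interior_subset hint
  have hR0 : 0 ≤ R := by simpa using hR 0 h0K
  -- the compact set of maps
  set 𝒜 : Set (E →L[ℝ] E) := {A | ∀ z ∈ K, ‖A z‖ ≤ 1} with h𝒜
  have hclosed : IsClosed 𝒜 := by
    have : 𝒜 = ⋂ z ∈ K, {A : E →L[ℝ] E | ‖A z‖ ≤ 1} := by
      ext A; simp [h𝒜]
    rw [this]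
    refine isClosed_biInter fun z _ => ?_
    exact isClosed_le (ContinuousLinearMap.apply ℝ E z).continuous.norm continuous_const
  have hbdd : 𝒜 ⊆ closedBall 0 (2 / r) := by
    intro A hA
    rw [mem_closedBall_zero_iff]
    refine ContinuousLinearMap.opNorm_le_bound _ (by positivity) fun x => ?_
    rcases eq_or_ne x 0 with rfl | hx
    · simp
    · have hx' : 0 < ‖x‖ := norm_pos_iff.mpr hx
      have hmem : (r / 2 / ‖x‖) • x ∈ K := by
        apply hrK
        rw [mem_ball_zero_iff, norm_smul, Real.norm_eq_abs, abs_of_pos (by positivity),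
          div_mul_cancel₀ _ hx'.ne']
        linarith
      have := hA _ hmem
      rw [map_smul, norm_smul, Real.norm_eq_abs, abs_of_pos (by positivity)] at this
      rw [div_mul_eq_mul_div, le_div_iff₀ hr]
      have h2 : r / 2 / ‖x‖ * ‖A x‖ = (r * ‖A x‖) / (2 * ‖x‖) := by field_simp
      rw [h2, div_le_one (by positivity)] at this
      linarith
  have hcomp : IsCompact 𝒜 := by
    have : ProperSpace (E →L[ℝ] E) := FiniteDimensional.proper ℝ _
    exact Metric.isCompact_of_isClosed_isBounded hclosed (isBounded_closedBall.subset hbdd)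
  have hne : ((1 / (R + 1)) • ContinuousLinearMap.id ℝ E) ∈ 𝒜 := by
    intro z hz
    have := hR z hz
    rw [_root_.smul_apply, ContinuousLinearMap.id_apply, norm_smul, Real.norm_eq_abs,
      abs_of_pos (by positivity), one_div_mul_eq_div, div_le_one (by positivity)]
    linarith
  obtain ⟨A₀, hA₀, hmax⟩ := hcomp.exists_isMaxOn ⟨_, hne⟩
    (ContinuousLinearMap.continuous_det.abs.continuousOn (s := 𝒜))
  have hmax' : ∀ A ∈ 𝒜, |A.det| ≤ |A₀.det| := fun A hA => hmax hA
  have hdet0 : 0 < |A₀.det| := by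
    refine lt_of_lt_of_le ?_ (hmax' _ hne)
    rw [abs_pos]
    have : ((1 / (R + 1)) • ContinuousLinearMap.id ℝ E).det = (1 / (R + 1)) ^ (finrank ℝ E) := by
      rw [ContinuousLinearMap.det, ContinuousLinearMap.toLinearMap_smul,
        LinearMap.det_smul]
      simp
    rw [this]
    positivity
  have hA₀det : LinearMap.det (A₀ : E →ₗ[ℝ] E) ≠ 0 := by
    intro h
    rw [ContinuousLinearMap.det, h, abs_zero] at hdet0
    exact lt_irrefl _ hdet0
  set A : E ≃ₗ[ℝ] E := LinearMap.equivOfDetNeZero (A₀ : E →ₗ[ℝ] E) hA₀det with hAdef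
  have hAapp : ∀ z, A z = A₀ z := fun z => rfl
  refine ⟨A, ?_⟩
  have himg : (fun z => A z) '' K = A₀ '' K := rfl
  rw [himg]
  have hBc : IsCompact (A₀ '' K) := hK.image A₀.continuous
  refine ⟨hBc, hconv.linear_image (A₀ : E →ₗ[ℝ] E), ⟨_, 0, h0K, rfl⟩, ?_, ?_, ?_⟩
  · rintro _ ⟨z, hz, rfl⟩
    exact ⟨-z, hsymm z hz, map_neg _ _⟩
  · rintro _ ⟨z, hz, rfl⟩
    exact hA₀ z hz
  · intro F
    by_contra hcon
    push Not at hcon
    -- maximum of the projection
    obtain ⟨w, hw, hwmax⟩ := hBc.exists_isMaxOn ⟨A₀ 0, 0, h0K, rfl⟩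
      ((F.starProjection.continuous.norm.pow 2).continuousOn (s := A₀ '' K))
    set a : ℝ := ‖F.starProjection w‖ ^ 2 with ha
    have ha' : ∀ z ∈ A₀ '' K, ‖F.starProjection z‖ ^ 2 ≤ a := fun z hz => hwmax hz
    set m : ℝ := (finrank ℝ F : ℝ) with hm
    have hn' : (0 : ℝ) < n := by exact_mod_cast hn
    have ham : a < m / n := by
      rw [lt_div_iff₀ hn']
      have := hcon w hw
      linarith
    have ha0 : 0 ≤ a := by positivity
    have hmn : m / n ≤ 1 := by
      rw [div_le_one hn']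
      have h1 : finrank ℝ F ≤ finrank ℝ E := Submodule.finrank_le F
      rw [hE] at h1
      rw [hm]
      exact_mod_cast h1
    set c : ℝ := (a + m / n) / 2 with hc
    have hac : a < c := by rw [hc]; linarith
    have hcm : c < m / n := by rw [hc]; linarith
    have hc0 : 0 < c := lt_of_le_of_lt ha0 hac
    have hc1 : c < 1 := lt_of_lt_of_le hcm hmn
    set S : E →L[ℝ] E := F.starProjection - c • ContinuousLinearMap.id ℝ E with hS
    have htr : 0 < LinearMap.trace ℝ E (S : E →ₗ[ℝ] E) := by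
      have h1 : LinearMap.trace ℝ E (F.starProjection : E →ₗ[ℝ] E) = finrank ℝ F := by
        have hp : LinearMap.IsProj F (F.starProjection : E →ₗ[ℝ] E) :=
          ⟨fun x => F.starProjection_apply_mem x,
            fun x hx => Submodule.starProjection_eq_self_iff.mpr hx⟩
        exact hp.trace
      have h2 : (S : E →ₗ[ℝ] E) = (F.starProjection : E →ₗ[ℝ] E) - c • LinearMap.id := by
        ext x
        simp [hS]
      rw [h2, map_sub, map_smul, h1, LinearMap.trace_id, hE, smul_eq_mul]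
      have := (lt_div_iff₀ hn').mp hcm
      rw [sub_pos]
      exact this
    obtain ⟨s, hs0, hsle, hsdet⟩ := Position.det_gt_one (S : E →ₗ[ℝ] E) htr
      (min (1 / (2 * c)) ((c - a) / 2)) (lt_min (by positivity) (by linarith))
    have hs1 : 2 * s * c ≤ 1 := by
      have h := hsle.trans (min_le_left _ _)
      rw [le_div_iff₀ (by positivity)] at h
      linarith
    have hs2 : 2 * s ≤ c - a := by
      have h := hsle.trans (min_le_right _ _)
      linarith
    set T : E →L[ℝ] E := ContinuousLinearMap.id ℝ E + s • S with hT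
    have hTdet : 1 < T.det := by
      have : (T : E →ₗ[ℝ] E) = 1 + s • (S : E →ₗ[ℝ] E) := by
        ext x
        simp [hT]
      rw [ContinuousLinearMap.det, this]
      exact hsdet
    have hmem : T ∘L A₀ ∈ 𝒜 := by
      intro z hz
      set y := A₀ z with hy
      have hyB : y ∈ A₀ '' K := ⟨z, hz, rfl⟩
      have hy1 : ‖y‖ ≤ 1 := hA₀ z hz
      have hya := ha' y hyB
      rw [ContinuousLinearMap.comp_apply, ← hy]
      have hin : inner ℝ y (F.starProjection y) = ‖F.starProjection y‖ ^ 2 := by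
        rw [real_inner_comm]
        exact Submodule.re_inner_starProjection_eq_normSq F y
      have e1 : ‖T y‖ ^ 2 = ‖y‖ ^ 2 + 2 * s * (‖F.starProjection y‖ ^ 2 - c * ‖y‖ ^ 2) +
          s ^ 2 * ‖S y‖ ^ 2 := by
        have h1 : T y = y + s • S y := by simp [hT]
        rw [h1, norm_add_sq_real, norm_smul, real_inner_smul_right]
        have h2 : inner ℝ y (S y) = ‖F.starProjection y‖ ^ 2 - c * ‖y‖ ^ 2 := by
          have h3 : S y = F.starProjection y - c • y := by simp [hS]
          rw [h3, inner_sub_right, real_inner_smul_right, hin, real_inner_self_eq_norm_sq]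
        rw [h2, Real.norm_eq_abs, mul_pow, sq_abs]
        ring
      have e2 : ‖S y‖ ≤ 2 := by
        have h3 : S y = F.starProjection y - c • y := by simp [hS]
        rw [h3]
        refine (norm_sub_le _ _).trans ?_
        have h4 : ‖F.starProjection y‖ ≤ ‖y‖ := F.norm_starProjection_apply_le y
        rw [norm_smul, Real.norm_eq_abs, abs_of_pos hc0]
        have h5 : c * ‖y‖ ≤ 1 * 1 := mul_le_mul hc1.le hy1 (norm_nonneg _) zero_le_one
        linarith
      have e3 : ‖S y‖ ^ 2 ≤ 4 := by nlinarith [norm_nonneg (S y)]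
      have e4 : ‖y‖ ^ 2 ≤ 1 := by nlinarith [norm_nonneg y]
      have e5 : ‖T y‖ ^ 2 ≤ 1 := by
        rw [e1]
        have h6 : ‖y‖ ^ 2 * (1 - 2 * s * c) ≤ 1 * (1 - 2 * s * c) :=
          mul_le_mul_of_nonneg_right e4 (by linarith)
        have h7 : s ^ 2 * ‖S y‖ ^ 2 ≤ s ^ 2 * 4 := mul_le_mul_of_nonneg_left e3 (by positivity)
        have h8 : 2 * s * ‖F.starProjection y‖ ^ 2 ≤ 2 * s * a :=
          mul_le_mul_of_nonneg_left hya (by positivity)
        have h9 : s * (2 * s) ≤ s * (c - a) := mul_le_mul_of_nonneg_left hs2 hs0.le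
        nlinarith
      have h10 := abs_le_of_sq_le_sq' (by simpa using e5 : ‖T y‖ ^ 2 ≤ (1 : ℝ) ^ 2) zero_le_one
      exact h10.2
    have hlast := hmax' _ hmem
    have hmul : (T ∘L A₀).det = T.det * A₀.det := by
      rw [ContinuousLinearMap.det, ContinuousLinearMap.det, ContinuousLinearMap.det]
      exact LinearMap.det_comp _ _
    rw [hmul, abs_mul] at hlast
    have hT1 : 1 < |T.det| := lt_of_lt_of_le hTdet (le_abs_self _)
    nlinarith

end Position

/-- BM-B: every symmetric convex body has a linear image in the position `IsPos`. -/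
theorem exists_position (n : ℕ) (hn : 0 < n) (K : Set (EuclideanSpace ℝ (Fin n)))
    (hK : IsCompact K) (hconv : Convex ℝ K) (hsymm : ∀ z ∈ K, -z ∈ K)
    (hint : (0 : EuclideanSpace ℝ (Fin n)) ∈ interior K) :
    ∃ A : EuclideanSpace ℝ (Fin n) ≃ₗ[ℝ] EuclideanSpace ℝ (Fin n),
      IsPos n ((fun z => A z) '' K) := by
  obtain ⟨A, h1, h2, h3, h4, h5, h6⟩ := Position.exists_position_aux n hn (by simp) K hK hconv
    hsymm hint
  exact ⟨A, ⟨h1, h2, h3, h4, h5, h6⟩⟩

end Pool.Agent.BM
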