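import Pool.Agent.Helper88.BM.Svd

/-!
# Ridge volume maximisers and the bound `2 n ^ (3/4)`
-/

namespace Pool.Agent.BM

open Matrix Module

/-- The matrix with the columns `x i`. -/
def colMat {n : ℕ} (x : Fin n → EuclideanSpace ℝ (Fin n)) : Matrix (Fin n) (Fin n) ℝ :=
  Matrix.of fun r i => x i r

/-- The matrix `β + ∑ x i (x i)ᵀ`. -/
noncomputable def ridge {n : ℕ} (β : ℝ) (x : Fin n → EuclideanSpace ℝ (Fin n)) : Matrix (Fin n) (Fin n) ℝ :=
  β • 1 + colMat x * (colMat x)ᵀ

theorem exists_ridge_max {n : ℕ} {B : Set (EuclideanSpace ℝ (Fin n))} (hc : IsCompact B)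
    (hne : B.Nonempty) (β : ℝ) :
    ∃ x : Fin n → EuclideanSpace ℝ (Fin n), (∀ i, x i ∈ B) ∧
      ∀ y : Fin n → EuclideanSpace ℝ (Fin n), (∀ i, y i ∈ B) →
        (ridge β y).det ≤ (ridge β x).det := by
  have hK : IsCompact (Set.pi Set.univ fun _ : Fin n => B) := isCompact_univ_pi fun _ => hc
  obtain ⟨b, hb⟩ := hne
  have hKne : (Set.pi Set.univ fun _ : Fin n => B).Nonempty := ⟨fun _ => b, fun i _ => hb⟩
  have hcol : Continuous fun x : Fin n → EuclideanSpace ℝ (Fin n) => colMat x := by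
    refine continuous_matrix fun r i => ?_
    simp only [colMat, Matrix.of_apply]
    fun_prop
  have hcont : Continuous fun x : Fin n → EuclideanSpace ℝ (Fin n) => (ridge β x).det := by
    unfold ridge
    refine Continuous.matrix_det ?_
    exact continuous_const.add (hcol.matrix_mul hcol.matrix_transpose)
  obtain ⟨x, hx, hmax⟩ := hK.exists_isMaxOn hKne hcont.continuousOn
  exact ⟨x, fun i => hx i (Set.mem_univ i), fun y hy => hmax (fun i _ => hy i)⟩

/-- The matrix whose columns are the vectors of an orthonormal basis. -/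
noncomputable def onMat {n : ℕ} (w : OrthonormalBasis (Fin n) ℝ (EuclideanSpace ℝ (Fin n))) :
    Matrix (Fin n) (Fin n) ℝ := Matrix.of fun r j => w j r

theorem onMat_transpose_mul {n : ℕ}
    (w : OrthonormalBasis (Fin n) ℝ (EuclideanSpace ℝ (Fin n))) :
    (onMat w)ᵀ * onMat w = 1 := by
  ext j k
  rw [Matrix.mul_apply, Matrix.one_apply]
  exact sum_coord_mul w j k

theorem onMat_mul_transpose {n : ℕ}
    (w : OrthonormalBasis (Fin n) ℝ (EuclideanSpace ℝ (Fin n))) :
    onMat w * (onMat w)ᵀ = 1 := mul_eq_one_comm.mp (onMat_transpose_mul w)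

theorem colMat_eq {n : ℕ} {x : Fin n → EuclideanSpace ℝ (Fin n)}
    {v w : OrthonormalBasis (Fin n) ℝ (EuclideanSpace ℝ (Fin n))} {s : Fin n → ℝ}
    (hx : ∀ i, x i = ∑ j, (s j * v j i) • w j) :
    colMat x = onMat w * diagonal s * (onMat v)ᵀ := by
  ext r i
  rw [Matrix.mul_apply]
  simp only [Matrix.mul_diagonal, colMat, onMat, Matrix.of_apply, Matrix.transpose_apply]
  rw [hx i]
  simp only [WithLp.ofLp_sum, WithLp.ofLp_smul, Finset.sum_apply, Pi.smul_apply, smul_eq_mul]
  exact Finset.sum_congr rfl fun j _ => by ring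

theorem ridge_eq {n : ℕ} {β : ℝ} {x : Fin n → EuclideanSpace ℝ (Fin n)}
    {v w : OrthonormalBasis (Fin n) ℝ (EuclideanSpace ℝ (Fin n))} {s : Fin n → ℝ}
    (hx : ∀ i, x i = ∑ j, (s j * v j i) • w j) :
    ridge β x = onMat w * diagonal (fun j => β + s j ^ 2) * (onMat w)ᵀ := by
  have h1 : colMat x * (colMat x)ᵀ = onMat w * diagonal (fun j => s j ^ 2) * (onMat w)ᵀ := by
    rw [colMat_eq hx, Matrix.transpose_mul, Matrix.transpose_mul, Matrix.transpose_transpose,
      Matrix.diagonal_transpose]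
    calc onMat w * diagonal s * (onMat v)ᵀ * (onMat v * (diagonal s * (onMat w)ᵀ))
        = onMat w * diagonal s * ((onMat v)ᵀ * onMat v) * (diagonal s * (onMat w)ᵀ) := by
          simp only [Matrix.mul_assoc]
      _ = onMat w * (diagonal s * diagonal s) * (onMat w)ᵀ := by
          rw [onMat_transpose_mul, Matrix.mul_one]
          simp only [Matrix.mul_assoc]
      _ = onMat w * diagonal (fun j => s j ^ 2) * (onMat w)ᵀ := by
          rw [Matrix.diagonal_mul_diagonal]
          simp only [pow_two]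
  have h2 : (β • 1 : Matrix (Fin n) (Fin n) ℝ) = onMat w * diagonal (fun _ => β) *
      (onMat w)ᵀ := by
    have h3 : diagonal (fun _ : Fin n => β) = β • (1 : Matrix (Fin n) (Fin n) ℝ) := by
      rw [Matrix.smul_one_eq_diagonal]
    rw [h3, Matrix.mul_smul, Matrix.smul_mul, Matrix.mul_one, onMat_mul_transpose]
  unfold ridge
  rw [h1, h2, ← Matrix.add_mul, ← Matrix.mul_add, Matrix.diagonal_add]

theorem ridge_inv {n : ℕ} {β : ℝ} (hβ : 0 < β) {x : Fin n → EuclideanSpace ℝ (Fin n)}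
    {v w : OrthonormalBasis (Fin n) ℝ (EuclideanSpace ℝ (Fin n))} {s : Fin n → ℝ}
    (hx : ∀ i, x i = ∑ j, (s j * v j i) • w j) :
    (ridge β x)⁻¹ = onMat w * diagonal (fun j => (β + s j ^ 2)⁻¹) * (onMat w)ᵀ := by
  refine Matrix.inv_eq_right_inv ?_
  rw [ridge_eq hx]
  calc onMat w * diagonal (fun j => β + s j ^ 2) * (onMat w)ᵀ *
        (onMat w * diagonal (fun j => (β + s j ^ 2)⁻¹) * (onMat w)ᵀ)
      = onMat w * (diagonal (fun j => β + s j ^ 2) * ((onMat w)ᵀ * onMat w) *
        diagonal (fun j => (β + s j ^ 2)⁻¹)) * (onMat w)ᵀ := by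
        simp only [Matrix.mul_assoc]
    _ = 1 := by
        rw [onMat_transpose_mul, Matrix.mul_one, Matrix.diagonal_mul_diagonal]
        have h1 : (fun j => (β + s j ^ 2) * (β + s j ^ 2)⁻¹) = fun _ : Fin n => (1 : ℝ) := by
          funext j
          have : 0 < β + s j ^ 2 := by positivity
          field_simp
        rw [h1, Matrix.diagonal_one, Matrix.mul_one, onMat_mul_transpose]

theorem ridge_det_pos {n : ℕ} {β : ℝ} (hβ : 0 < β) {x : Fin n → EuclideanSpace ℝ (Fin n)}
    {v w : OrthonormalBasis (Fin n) ℝ (EuclideanSpace ℝ (Fin n))} {s : Fin n → ℝ}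
    (hx : ∀ i, x i = ∑ j, (s j * v j i) • w j) : 0 < (ridge β x).det := by
  rw [ridge_eq hx, Matrix.mul_assoc, Matrix.det_mul_comm, Matrix.mul_assoc,
    onMat_transpose_mul, Matrix.mul_one, Matrix.det_diagonal]
  exact Finset.prod_pos fun j _ => by positivity

/-- The exchange inequality. -/
theorem exchange {n : ℕ} {β : ℝ} (hβ : 0 < β) {x : Fin n → EuclideanSpace ℝ (Fin n)}
    {v w : OrthonormalBasis (Fin n) ℝ (EuclideanSpace ℝ (Fin n))} {s : Fin n → ℝ}
    (hx : ∀ i, x i = ∑ j, (s j * v j i) • w j) (z : EuclideanSpace ℝ (Fin n)) (i : Fin n)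
    (hmax : (ridge β (Function.update x i z)).det ≤ (ridge β x).det) :
    (β * ∑ j, v j i ^ 2 / (β + s j ^ 2)) * (1 + ∑ j, inner ℝ (w j) z ^ 2 / (β + s j ^ 2)) ≤
      1 := by
  classical
  set U : Matrix (Fin n) (Fin 2) ℝ := Matrix.of fun r k => ![-(x i r), z r] k with hU
  set Q : Matrix (Fin 2) (Fin n) ℝ := Matrix.of fun k r => ![x i r, z r] k with hQ
  have hupd : ridge β (Function.update x i z) = ridge β x + U * Q := by
    unfold ridge
    rw [add_assoc]
    congr 1
    ext r c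
    rw [Matrix.add_apply, Matrix.mul_apply, Matrix.mul_apply, Matrix.mul_apply]
    simp only [Matrix.transpose_apply, colMat, Matrix.of_apply, hU, hQ, Fin.sum_univ_two,
      Matrix.cons_val_zero, Matrix.cons_val_one]
    rw [← Finset.add_sum_erase _ _ (Finset.mem_univ i),
      ← Finset.add_sum_erase (Finset.univ) (fun j => (x j).ofLp r * (x j).ofLp c)
        (Finset.mem_univ i)]
    have h1 : ∑ j ∈ Finset.univ.erase i, (Function.update x i z j).ofLp r *
        (Function.update x i z j).ofLp c =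
        ∑ j ∈ Finset.univ.erase i, (x j).ofLp r * (x j).ofLp c := by
      refine Finset.sum_congr rfl fun j hj => ?_
      rw [Function.update_of_ne (Finset.ne_of_mem_erase hj)]
    rw [h1, Function.update_self]
    ring
  have hdet := ridge_det_pos hβ hx
  rw [hupd, Matrix.det_add_mul U Q (isUnit_iff_ne_zero.mpr hdet.ne')] at hmax
  have h2 : (1 + Q * (ridge β x)⁻¹ * U).det ≤ 1 := by
    by_contra hcon
    push Not at hcon
    nlinarith
  -- coordinates
  have hα : ∀ j, ∑ r, w j r * x i r = s j * v j i := by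
    intro j
    have h3 : ∑ r, w j r * x i r = inner ℝ (w j) (x i) := by
      rw [PiLp.inner_apply]
      exact Finset.sum_congr rfl fun r _ => by simp [mul_comm]
    rw [h3, hx i, inner_sum, Finset.sum_eq_single j]
    · rw [real_inner_smul_right, orthonormal_iff_ite.mp w.orthonormal j j, if_pos rfl, mul_one]
    · intro k _ hk
      rw [real_inner_smul_right, orthonormal_iff_ite.mp w.orthonormal j k,
        if_neg (Ne.symm hk), mul_zero]
    · intro h
      exact absurd (Finset.mem_univ j) h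
  have hζ : ∀ j, ∑ r, w j r * z r = inner ℝ (w j) z := by
    intro j
    rw [PiLp.inner_apply]
    exact Finset.sum_congr rfl fun r _ => by simp [mul_comm]
  have hent : ∀ k l, (Q * (ridge β x)⁻¹ * U) k l =
      ∑ j, (∑ r, w j r * Q k r) * (β + s j ^ 2)⁻¹ * (∑ r, w j r * U r l) := by
    intro k l
    rw [ridge_inv hβ hx]
    have h4 : Q * (onMat w * diagonal (fun j => (β + s j ^ 2)⁻¹) * (onMat w)ᵀ) * U =
        (Q * onMat w) * diagonal (fun j => (β + s j ^ 2)⁻¹) * ((onMat w)ᵀ * U) := by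
      simp only [Matrix.mul_assoc]
    rw [h4, Matrix.mul_apply]
    refine Finset.sum_congr rfl fun j _ => ?_
    rw [Matrix.mul_diagonal, Matrix.mul_apply, Matrix.mul_apply]
    simp only [onMat, Matrix.of_apply, Matrix.transpose_apply]
    congr 2
    exact Finset.sum_congr rfl fun r _ => mul_comm _ _
  set a : Fin n → ℝ := fun j => s j * v j i with ha
  set b : Fin n → ℝ := fun j => inner ℝ (w j) z with hb
  have hQ0 : ∀ j, ∑ r, w j r * Q 0 r = a j := fun j => by
    simpa [hQ] using hα j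
  have hQ1 : ∀ j, ∑ r, w j r * Q 1 r = b j := fun j => by
    simpa [hQ] using hζ j
  have hU0 : ∀ j, ∑ r, w j r * U r 0 = -a j := fun j => by
    have := hα j
    simp only [hU, Matrix.of_apply, Matrix.cons_val_zero, mul_neg, Finset.sum_neg_distrib]
    rw [this]
  have hU1 : ∀ j, ∑ r, w j r * U r 1 = b j := fun j => by
    simpa [hU] using hζ j
  rw [Matrix.det_fin_two] at h2
  simp only [Matrix.add_apply, hent, hQ0, hQ1, hU0, hU1, Matrix.one_apply_eq] at h2
  have h01 : (1 : Matrix (Fin 2) (Fin 2) ℝ) 0 1 = 0 := by simp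
  have h10 : (1 : Matrix (Fin 2) (Fin 2) ℝ) 1 0 = 0 := by simp
  rw [h01, h10] at h2
  set R := ∑ j, a j * (β + s j ^ 2)⁻¹ * b j with hR
  have hRR : ∑ j, b j * (β + s j ^ 2)⁻¹ * -a j = -R := by
    rw [hR, ← Finset.sum_neg_distrib]
    exact Finset.sum_congr rfl fun j _ => by ring
  have hq : ∑ j, b j * (β + s j ^ 2)⁻¹ * b j = ∑ j, b j ^ 2 / (β + s j ^ 2) :=
    Finset.sum_congr rfl fun j _ => by rw [div_eq_mul_inv]; ring
  have hl : ∑ j, a j * (β + s j ^ 2)⁻¹ * -a j =
      -1 + β * ∑ j, v j i ^ 2 / (β + s j ^ 2) := by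
    have h5 : ∑ j, v j i ^ 2 = 1 := by
      have h6 := sum_coord_mul' v i i
      rw [if_pos rfl] at h6
      rw [← h6]
      exact Finset.sum_congr rfl fun j _ => by ring
    rw [← h5, Finset.mul_sum, ← Finset.sum_neg_distrib, ← Finset.sum_add_distrib]
    refine Finset.sum_congr rfl fun j _ => ?_
    have h7 : 0 < β + s j ^ 2 := by positivity
    simp only [ha]
    field_simp
    ring
  rw [hRR, hq, hl] at h2
  have h8 := mul_self_nonneg R
  nlinarith

theorem norm_sq_sum {n : ℕ} (w : OrthonormalBasis (Fin n) ℝ (EuclideanSpace ℝ (Fin n)))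
    (g : Fin n → ℝ) : ‖∑ j, g j • w j‖ ^ 2 = ∑ j, g j ^ 2 := by
  rw [← w.sum_sq_inner_right]
  refine Finset.sum_congr rfl fun j _ => ?_
  congr 1
  rw [inner_sum, Finset.sum_eq_single j]
  · rw [real_inner_smul_right, orthonormal_iff_ite.mp w.orthonormal j j, if_pos rfl, mul_one]
  · intro k _ hk
    rw [real_inner_smul_right, orthonormal_iff_ite.mp w.orthonormal j k,
      if_neg (Ne.symm hk), mul_zero]
  · intro h
    exact absurd (Finset.mem_univ j) h

/-- The scalar inequality behind the perturbation by the small ball. -/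
theorem scalar_ineq {N β q γ s : ℝ} (hN : 0 < N) (hβ : β = N⁻¹) (hq0 : 0 ≤ q) (hqN : q ≤ N)
    (hγ : γ = β * (1 + q) / N ^ 2) (hs : 0 ≤ s) :
    q * (β + s ^ 2) ≤ 4 * N * ((s + √γ / √(β + s ^ 2)) / 2) ^ 2 := by
  have hβ0 : 0 < β := by rw [hβ]; positivity
  have hγ0 : 0 < γ := by rw [hγ]; positivity
  have hR2 : 0 < β + s ^ 2 := by positivity
  set R := √(β + s ^ 2) with hR
  have hR0 : 0 < R := Real.sqrt_pos.mpr hR2
  have hRR : R ^ 2 = β + s ^ 2 := Real.sq_sqrt hR2.le
  have hsR : s ≤ R := Real.le_sqrt_of_sq_le (by linarith)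
  have h1 : √q ≤ √N := Real.sqrt_le_sqrt hqN
  have h2 : √q * β ≤ √N * √γ := by
    rw [← Real.sqrt_mul hN.le]
    have h3 : √q * β = √(q * β ^ 2) := by
      rw [Real.sqrt_mul hq0, Real.sqrt_sq hβ0.le]
    rw [h3]
    refine Real.sqrt_le_sqrt ?_
    rw [hγ, hβ]
    have h4 : N * (N⁻¹ * (1 + q) / N ^ 2) = (1 + q) * N⁻¹ ^ 2 := by
      field_simp
    rw [h4]
    have h5 : (0 : ℝ) ≤ N⁻¹ ^ 2 := by positivity
    nlinarith
  have h6 : √q * s ^ 2 ≤ √N * (s * R) := by
    have h7 : s ^ 2 ≤ s * R := by nlinarith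
    exact mul_le_mul h1 h7 (by positivity) (Real.sqrt_nonneg _)
  have h8 : √q * R ^ 2 ≤ √N * (s * R + √γ) := by
    rw [hRR]
    nlinarith
  have h9 : (√q * R ^ 2) ^ 2 ≤ (√N * (s * R + √γ)) ^ 2 :=
    pow_le_pow_left₀ (by positivity) h8 2
  rw [mul_pow, mul_pow, Real.sq_sqrt hq0, Real.sq_sqrt hN.le] at h9
  have h10 : 4 * N * ((s + √γ / R) / 2) ^ 2 = N * (s * R + √γ) ^ 2 / R ^ 2 := by
    field_simp
    ring
  rw [h10, ← hRR, le_div_iff₀ (by positivity)]
  calc q * R ^ 2 * R ^ 2 = q * (R ^ 2) ^ 2 := by ring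
    _ ≤ N * (s * R + √γ) ^ 2 := h9

/-- **Main theorem in Euclidean form**: a convex compact body between the balls of radii
`n ^ (-1/2)` and `1` is within `2 n ^ (3/4)` of a linear image of the cross-polytope. -/
theorem ridge_main {n : ℕ} (hn : 0 < n) {B : Set (EuclideanSpace ℝ (Fin n))}
    (hc : IsCompact B) (hconv : Convex ℝ B) (hle : ∀ z ∈ B, ‖z‖ ≤ 1)
    (hball : ∀ f : EuclideanSpace ℝ (Fin n), n * ‖f‖ ^ 2 ≤ 1 → f ∈ B) :
    ∃ y : Fin n → EuclideanSpace ℝ (Fin n), (∀ i, y i ∈ B) ∧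
      ∀ z ∈ B, ∃ c : Fin n → ℝ, z = ∑ i, c i • y i ∧
        ∑ i, |c i| ≤ 2 * (n : ℝ) ^ (3 / 4 : ℝ) := by
  classical
  have hn' : (0 : ℝ) < n := by exact_mod_cast hn
  set N := √(n : ℝ) with hN
  have hN0 : 0 < N := Real.sqrt_pos.mpr hn'
  have hNN : N ^ 2 = n := Real.sq_sqrt hn'.le
  set β := N⁻¹ with hβ
  have hβ0 : 0 < β := inv_pos.mpr hN0
  have hne : B.Nonempty := ⟨0, hball 0 (by simp)⟩
  obtain ⟨x, hxB, hxmax⟩ := exists_ridge_max hc hne β
  obtain ⟨v, w, s, hs, hx⟩ := svd x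
  have hd : ∀ j, 0 < β + s j ^ 2 := fun j => by positivity
  set Q : EuclideanSpace ℝ (Fin n) → ℝ := fun z => ∑ j, inner ℝ (w j) z ^ 2 / (β + s j ^ 2)
    with hQ
  have hQc : Continuous Q := by
    rw [hQ]
    fun_prop
  obtain ⟨z₀, hz₀, hz₀max⟩ := hc.exists_isMaxOn hne hQc.continuousOn
  set q := Q z₀ with hq
  have hQq : ∀ z ∈ B, Q z ≤ q := fun z hz => hz₀max hz
  have hqN : q ≤ N := by
    have h1 : Q z₀ ≤ ∑ j, inner ℝ (w j) z₀ ^ 2 / β := by
      refine Finset.sum_le_sum fun j _ => ?_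
      refine div_le_div_of_nonneg_left (sq_nonneg _) hβ0 ?_
      have := sq_nonneg (s j)
      linarith
    have h2 : ∑ j, inner ℝ (w j) z₀ ^ 2 / β = ‖z₀‖ ^ 2 * N := by
      rw [← Finset.sum_div, w.sum_sq_inner_right, hβ, div_inv_eq_mul]
    have h3 := hle z₀ hz₀
    have h4 : ‖z₀‖ ^ 2 ≤ 1 := pow_le_one₀ (norm_nonneg _) h3
    rw [h2] at h1
    nlinarith
  have hq0 : 0 < q := by
    let j₀ : Fin n := ⟨0, hn⟩
    have h1 : N⁻¹ • w j₀ ∈ B := by
      refine hball _ ?_
      rw [norm_smul, w.orthonormal.1 j₀, mul_one, Real.norm_eq_abs, abs_of_pos hβ0, inv_pow, hNN,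
        mul_inv_cancel₀ hn'.ne']
    refine lt_of_lt_of_le ?_ (hQq _ h1)
    have h2 : inner ℝ (w j₀) (N⁻¹ • w j₀) ^ 2 / (β + s j₀ ^ 2) ≤ Q (N⁻¹ • w j₀) :=
      Finset.single_le_sum (f := fun j => inner ℝ (w j) (N⁻¹ • w j₀) ^ 2 / (β + s j ^ 2))
        (fun j _ => div_nonneg (sq_nonneg _) (hd j).le) (Finset.mem_univ j₀)
    refine lt_of_lt_of_le ?_ h2
    rw [real_inner_smul_right, orthonormal_iff_ite.mp w.orthonormal j₀ j₀, if_pos rfl, mul_one]
    exact div_pos (by positivity) (hd _)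
  have hκ : ∀ i, (β * ∑ j, v j i ^ 2 / (β + s j ^ 2)) * (1 + q) ≤ 1 := by
    intro i
    refine exchange hβ0 hx z₀ i (hxmax _ fun k => ?_)
    by_cases hk : k = i
    · subst hk
      rw [Function.update_self]
      exact hz₀
    · rw [Function.update_of_ne hk]
      exact hxB k
  set γ := β * (1 + q) / N ^ 2 with hγ
  have hγ0 : 0 < γ := by rw [hγ]; positivity
  set t : Fin n → ℝ := fun j => (s j + √γ / √(β + s j ^ 2)) / 2 with ht
  have ht0 : ∀ j, 0 < t j := fun j => by
    have h1 : 0 < √γ / √(β + s j ^ 2) :=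
      div_pos (Real.sqrt_pos.mpr hγ0) (Real.sqrt_pos.mpr (hd j))
    have h2 := hs j
    simp only [ht]
    linarith
  have hkey : ∀ j, q * (β + s j ^ 2) ≤ 4 * N * t j ^ 2 := fun j =>
    scalar_ineq hN0 rfl hq0.le hqN rfl (hs j)
  refine ⟨fun i => ∑ j, (t j * v j i) • w j, fun i => ?_, fun z hz => ?_⟩
  · -- membership
    have he : ∑ j, (√γ / √(β + s j ^ 2) * v j i) • w j ∈ B := by
      refine hball _ ?_
      rw [norm_sq_sum]
      have h1 : ∑ j, (√γ / √(β + s j ^ 2) * v j i) ^ 2 =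
          γ * ∑ j, v j i ^ 2 / (β + s j ^ 2) := by
        rw [Finset.mul_sum]
        refine Finset.sum_congr rfl fun j _ => ?_
        rw [mul_pow, div_pow, Real.sq_sqrt hγ0.le, Real.sq_sqrt (hd j).le]
        ring
      rw [h1, ← hNN]
      refine le_trans (le_of_eq ?_) (hκ i)
      rw [hγ]
      field_simp
    have h2 := hconv (hxB i) he (by norm_num : (0 : ℝ) ≤ 1 / 2) (by norm_num : (0 : ℝ) ≤ 1 / 2)
      (by norm_num)
    have h3 : ∑ j, (t j * v j i) • w j =
        (1 / 2 : ℝ) • x i + (1 / 2 : ℝ) • ∑ j, (√γ / √(β + s j ^ 2) * v j i) • w j := by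
      rw [hx i, Finset.smul_sum, Finset.smul_sum, ← Finset.sum_add_distrib]
      refine Finset.sum_congr rfl fun j _ => ?_
      rw [smul_smul, smul_smul, ← add_smul]
      congr 1
      simp only [ht]
      ring
    change ∑ j, (t j * v j i) • w j ∈ B
    rw [h3]
    exact h2
  · -- coordinates
    set g : Fin n → ℝ := fun j => inner ℝ (w j) z / t j with hg
    refine ⟨fun i => ∑ k, g k * v k i, ?_, ?_⟩
    · have h1 : ∑ i, (∑ k, g k * v k i) • ∑ j, (t j * v j i) • w j =
          ∑ j, (inner ℝ (w j) z) • w j := by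
        have h2 : ∀ i, (∑ k, g k * v k i) • ∑ j, (t j * v j i) • w j =
            ∑ j, (∑ k, g k * t j * (v k i * v j i)) • w j := by
          intro i
          rw [Finset.smul_sum]
          refine Finset.sum_congr rfl fun j _ => ?_
          rw [smul_smul, Finset.sum_mul]
          congr 1
          exact Finset.sum_congr rfl fun k _ => by ring
        simp only [h2]
        rw [Finset.sum_comm]
        refine Finset.sum_congr rfl fun j _ => ?_
        rw [← Finset.sum_smul]
        congr 1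
        rw [Finset.sum_comm]
        have h3 : ∀ k, ∑ i, g k * t j * (v k i * v j i) = if k = j then g k * t j else 0 := by
          intro k
          rw [← Finset.mul_sum, sum_coord_mul]
          by_cases hkj : k = j
          · simp [hkj]
          · simp [hkj]
        simp only [h3]
        rw [Finset.sum_ite_eq' Finset.univ j, if_pos (Finset.mem_univ j)]
        simp only [hg]
        exact div_mul_cancel₀ _ (ht0 j).ne'
      rw [h1]
      exact (w.sum_repr' z).symm
    · have h1 : ∑ i, (∑ k, g k * v k i) ^ 2 = ∑ k, g k ^ 2 := by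
        rw [← norm_sq_sum v g, EuclideanSpace.norm_sq_eq]
        refine Finset.sum_congr rfl fun i _ => ?_
        rw [Real.norm_eq_abs, sq_abs]
        congr 1
        simp
      have h2 : q * ∑ k, g k ^ 2 ≤ 4 * N * q := by
        calc q * ∑ k, g k ^ 2 = ∑ k, q * g k ^ 2 := Finset.mul_sum _ _ _
          _ ≤ ∑ k, 4 * N * (inner ℝ (w k) z ^ 2 / (β + s k ^ 2)) := by
              refine Finset.sum_le_sum fun k _ => ?_
              have h3 := hkey k
              have h4 : 0 < t k ^ 2 := pow_pos (ht0 k) 2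
              simp only [hg]
              rw [div_pow, mul_div_assoc', mul_div_assoc', div_le_div_iff₀ h4 (hd k)]
              have h5 := sq_nonneg (inner ℝ (w k) z)
              nlinarith
          _ = 4 * N * Q z := by rw [hQ, Finset.mul_sum]
          _ ≤ 4 * N * q := mul_le_mul_of_nonneg_left (hQq z hz) (by positivity)
      have h3 : ∑ k, g k ^ 2 ≤ 4 * N := by
        by_contra hcon
        push Not at hcon
        nlinarith
      have h4 : (∑ i, |∑ k, g k * v k i|) ^ 2 ≤ (2 * (n : ℝ) ^ (3 / 4 : ℝ)) ^ 2 := by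
        have h5 := sq_sum_le_card_mul_sum_sq (s := (Finset.univ : Finset (Fin n)))
          (f := fun i => |∑ k, g k * v k i|)
        simp only [sq_abs, Finset.card_univ, Fintype.card_fin] at h5
        rw [h1] at h5
        refine h5.trans ?_
        have h6 : ((n : ℝ) ^ (3 / 4 : ℝ)) ^ 2 = n * N := by
          rw [hN, Real.sqrt_eq_rpow, ← Real.rpow_natCast, ← Real.rpow_mul hn'.le]
          nth_rw 2 [← Real.rpow_one (n : ℝ)]
          rw [← Real.rpow_add hn']
          norm_num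
        rw [mul_pow, h6]
        nlinarith
      exact (pow_le_pow_iff_left₀ (Finset.sum_nonneg fun i _ => abs_nonneg _) (by positivity)
        two_ne_zero).mp h4

end Pool.Agent.BM
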