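import Pool.Agent.Helper88.BM.Defs

/-!
# Selection of a well invertible principal submatrix by a barrier argument
-/

namespace Pool.Agent.BM

open Matrix

namespace Sel

section

set_option linter.unusedSectionVars false

variable {ι : Type} [Fintype ι] [DecidableEq ι]

lemma psd_factor {A : Matrix ι ι ℝ} (hA : A.PosSemidef) : ∃ B : Matrix ι ι ℝ, A = Bᵀ * B := by
  open scoped MatrixOrder in
  obtain ⟨B, hB⟩ := CStarAlgebra.nonneg_iff_eq_star_mul_self.mp hA.nonneg
  refine ⟨B, ?_⟩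
  rw [hB, star_eq_conjTranspose, conjTranspose_eq_transpose_of_trivial]

lemma trace_mul_nonneg {A B : Matrix ι ι ℝ} (hA : A.PosSemidef) (hB : B.PosSemidef) :
    0 ≤ (A * B).trace := by
  obtain ⟨C, rfl⟩ := psd_factor hA
  have h1 : (Cᵀ * C * B).trace = (C * B * Cᵀ).trace := by
    rw [Matrix.mul_assoc, Matrix.trace_mul_comm]
  rw [h1]
  have h2 := hB.mul_mul_conjTranspose_same C
  rw [conjTranspose_eq_transpose_of_trivial] at h2
  exact h2.trace_nonneg

lemma dot_cs (u v : ι → ℝ) : (u ⬝ᵥ v) ^ 2 ≤ (u ⬝ᵥ u) * (v ⬝ᵥ v) := by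
  have h := Finset.sum_mul_sq_le_sq_mul_sq Finset.univ u v
  simpa [dotProduct, sq] using h

lemma dot_self_nonneg (u : ι → ℝ) : 0 ≤ u ⬝ᵥ u := by
  have := Finset.sum_nonneg (s := Finset.univ) (f := fun i => u i * u i)
    (fun i _ => mul_self_nonneg _)
  simpa [dotProduct] using this

lemma dot_tm (C : Matrix ι ι ℝ) (u v : ι → ℝ) :
    u ⬝ᵥ ((Cᵀ * C) *ᵥ v) = (C *ᵥ u) ⬝ᵥ (C *ᵥ v) := by
  rw [← Matrix.mulVec_mulVec, Matrix.dotProduct_mulVec, Matrix.vecMul_transpose]

lemma dot_le_trace {K : Matrix ι ι ℝ} (hK : K.PosSemidef) (t : ι → ℝ) :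
    t ⬝ᵥ (K *ᵥ t) ≤ K.trace * (t ⬝ᵥ t) := by
  obtain ⟨C, rfl⟩ := psd_factor hK
  rw [dot_tm]
  have h1 : (Cᵀ * C).trace = ∑ j, (C j) ⬝ᵥ (C j) := by
    simp only [Matrix.trace, Matrix.diag, Matrix.mul_apply, dotProduct, Matrix.transpose_apply]
    exact Finset.sum_comm
  rw [h1, Finset.sum_mul]
  unfold dotProduct
  refine Finset.sum_le_sum fun j _ => ?_
  have := dot_cs (C j) t
  simpa [Matrix.mulVec, dotProduct, sq] using this

lemma inv_low {N : Matrix ι ι ℝ} (hN : N.PosDef) {Φ : ℝ} (hΦ : (N⁻¹).trace ≤ Φ) (t : ι → ℝ) :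
    t ⬝ᵥ t ≤ Φ * (t ⬝ᵥ (N *ᵥ t)) := by
  have hu : IsUnit N.det := (Matrix.isUnit_iff_isUnit_det _).mp hN.isUnit
  have hK : (N⁻¹).PosDef := hN.inv
  obtain ⟨C, hC⟩ := psd_factor hK.posSemidef
  have e1 : N⁻¹ *ᵥ (N *ᵥ t) = t := by
    rw [Matrix.mulVec_mulVec, Matrix.nonsing_inv_mul _ hu, Matrix.one_mulVec]
  have e2 : t ⬝ᵥ t = (C *ᵥ t) ⬝ᵥ (C *ᵥ (N *ᵥ t)) := by
    rw [← dot_tm, ← hC, e1]
  have e3 : (C *ᵥ t) ⬝ᵥ (C *ᵥ t) = t ⬝ᵥ (N⁻¹ *ᵥ t) := by
    rw [← dot_tm, ← hC]
  have e4 : (C *ᵥ (N *ᵥ t)) ⬝ᵥ (C *ᵥ (N *ᵥ t)) = t ⬝ᵥ (N *ᵥ t) := by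
    rw [← dot_tm, ← hC, e1, dotProduct_comm]
  have h1 := dot_cs (C *ᵥ t) (C *ᵥ (N *ᵥ t))
  rw [← e2, e3, e4] at h1
  have h2 := dot_le_trace hK.posSemidef t
  have h3 : 0 ≤ t ⬝ᵥ (N *ᵥ t) := by
    have := hN.posSemidef.dotProduct_mulVec_nonneg t
    simpa using this
  have h4 := dot_self_nonneg t
  have h5 : t ⬝ᵥ (N⁻¹ *ᵥ t) ≤ Φ * (t ⬝ᵥ t) :=
    h2.trans (mul_le_mul_of_nonneg_right hΦ h4)
  rcases h4.eq_or_lt with h0 | h0
  · rw [← h0]
    have : 0 ≤ Φ := le_trans hK.posSemidef.trace_nonneg hΦ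
    positivity
  · have h6 : (t ⬝ᵥ t) ^ 2 ≤ (Φ * (t ⬝ᵥ t)) * (t ⬝ᵥ (N *ᵥ t)) :=
      h1.trans (mul_le_mul_of_nonneg_right h5 h3)
    have h7 : (t ⬝ᵥ t) * (t ⬝ᵥ t) ≤ (t ⬝ᵥ t) * (Φ * (t ⬝ᵥ (N *ᵥ t))) := by nlinarith
    exact le_of_mul_le_mul_left h7 h0

/-- Lowering a positive definite matrix by `η` where `2η ≤ 1/Φ`. -/
lemma lower {N : Matrix ι ι ℝ} (hN : N.PosDef) {Φ : ℝ} (hΦ0 : 0 < Φ)
    (hΦ : (N⁻¹).trace ≤ Φ) :
    (N - (1 / (2 * Φ)) • (1 : Matrix ι ι ℝ)).PosDef ∧
    ((N - (1 / (2 * Φ)) • (1 : Matrix ι ι ℝ))⁻¹).trace ≤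
      (N⁻¹).trace + 1 / Φ * (N⁻¹ * N⁻¹).trace := by
  set η : ℝ := 1 / (2 * Φ) with hη
  have hη0 : 0 < η := by positivity
  have hu : IsUnit N.det := (Matrix.isUnit_iff_isUnit_det _).mp hN.isUnit
  have hq : ∀ (c : ℝ) (x : ι → ℝ),
      x ⬝ᵥ ((N - c • (1 : Matrix ι ι ℝ)) *ᵥ x) = x ⬝ᵥ (N *ᵥ x) - c * (x ⬝ᵥ x) := by
    intro c x
    rw [Matrix.sub_mulVec, Matrix.smul_mulVec, Matrix.one_mulVec, dotProduct_sub,
      dotProduct_smul, smul_eq_mul]
  have hherm : ∀ c : ℝ, (N - c • (1 : Matrix ι ι ℝ)).IsHermitian := by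
    intro c
    refine hN.isHermitian.sub ?_
    simp [Matrix.IsHermitian]
  have hM : (N - η • (1 : Matrix ι ι ℝ)).PosDef := by
    refine PosDef.of_dotProduct_mulVec_pos (hherm _) fun x hx => ?_
    simp only [star_trivial]
    rw [hq]
    have h1 := inv_low hN hΦ x
    have h2 : 0 < x ⬝ᵥ x := by
      rcases (dot_self_nonneg x).eq_or_lt with h | h
      · exact absurd (dotProduct_self_eq_zero.mp h.symm) hx
      · exact h
    have h3 : x ⬝ᵥ x / Φ ≤ x ⬝ᵥ (N *ᵥ x) := by
      rw [div_le_iff₀ hΦ0]; linarith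
    have h4 : η * (x ⬝ᵥ x) < x ⬝ᵥ x / Φ := by
      rw [hη, div_mul_eq_mul_div, one_mul]
      apply div_lt_div_of_pos_left h2 hΦ0
      linarith
    linarith
  have hP2 : (N - (2 * η) • (1 : Matrix ι ι ℝ)).PosSemidef := by
    refine PosSemidef.of_dotProduct_mulVec_nonneg (hherm _) fun x => ?_
    simp only [star_trivial]
    rw [hq]
    have h1 := inv_low hN hΦ x
    have h3 : x ⬝ᵥ x / Φ ≤ x ⬝ᵥ (N *ᵥ x) := by
      rw [div_le_iff₀ hΦ0]; linarith
    have h4 : 2 * η * (x ⬝ᵥ x) = x ⬝ᵥ x / Φ := by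
      rw [hη]; field_simp
    linarith
  refine ⟨hM, ?_⟩
  set M := N - η • (1 : Matrix ι ι ℝ) with hMdef
  have huM : IsUnit M.det := (Matrix.isUnit_iff_isUnit_det _).mp hM.isUnit
  set K := N⁻¹ with hKdef
  have hNK : N * K = 1 := Matrix.mul_nonsing_inv _ hu
  have hKN : K * N = 1 := Matrix.nonsing_inv_mul _ hu
  have hKh : Kᵀ = K := by
    have := hN.inv.isHermitian
    rw [Matrix.IsHermitian, conjTranspose_eq_transpose_of_trivial] at this
    exact this
  -- the remainder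
  set R := η • (K - (2 * η) • (K * K)) with hR
  have hRpsd : R.PosSemidef := by
    have e : K - (2 * η) • (K * K) = K * (N - (2 * η) • (1 : Matrix ι ι ℝ)) * Kᴴ := by
      rw [conjTranspose_eq_transpose_of_trivial, hKh, Matrix.mul_sub, Matrix.sub_mul, hKN,
        Matrix.one_mul, Matrix.mul_smul, Matrix.mul_one, Matrix.smul_mul]
    rw [hR, e]
    exact (hP2.mul_mul_conjTranspose_same K).smul hη0.le
  have hMQ : M * (K + (2 * η) • (K * K)) = 1 + R := by
    rw [hMdef, hR, Matrix.sub_mul, Matrix.mul_add, Matrix.mul_smul, ← Matrix.mul_assoc, hNK,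
      Matrix.one_mul, Matrix.smul_mul, Matrix.one_mul]
    simp only [smul_add, smul_sub, smul_smul]
    have : (2 * η) • K = η • K + η • K := by rw [two_mul, add_smul]
    rw [this]
    have h2 : (η * (2 * η)) • (K * K) = (η * (2 * η)) • (K * K) := rfl
    abel
  have hQ : K + (2 * η) • (K * K) = M⁻¹ + M⁻¹ * R := by
    have h := congrArg (fun X => M⁻¹ * X) hMQ
    simp only [← Matrix.mul_assoc, Matrix.nonsing_inv_mul _ huM, Matrix.one_mul,
      Matrix.mul_add, Matrix.mul_one] at h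
    rw [← h]
  have htr := congrArg Matrix.trace hQ
  rw [Matrix.trace_add, Matrix.trace_add, Matrix.trace_smul] at htr
  have h5 := trace_mul_nonneg hM.inv.posSemidef hRpsd
  have h6 : 2 * η = 1 / Φ := by rw [hη]; field_simp
  rw [h6, smul_eq_mul] at htr
  linarith

end

lemma sum_ne {ι : Type} [Fintype ι] [DecidableEq ι] (i : ι) (f : ι → ℝ) :
    ∑ j : {j // j ≠ i}, f j.val = (∑ j, f j) - f i := by
  rw [← Finset.sum_erase_eq_sub (Finset.mem_univ i)]
  exact (Finset.sum_subtype (Finset.univ.erase i) (by simp) f).symm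

/-- Removing one row and column. -/
lemma remove {ι : Type} [Fintype ι] [DecidableEq ι] {N : Matrix ι ι ℝ} (hN : N.PosDef) (i : ι) :
    (N.submatrix (Subtype.val : {j // j ≠ i} → ι) Subtype.val).PosDef ∧
    ((N.submatrix (Subtype.val : {j // j ≠ i} → ι) Subtype.val)⁻¹).trace =
      (N⁻¹).trace - (N⁻¹ * N⁻¹) i i / N⁻¹ i i ∧
    ((N.submatrix (Subtype.val : {j // j ≠ i} → ι) Subtype.val)⁻¹ *
      (N.submatrix (Subtype.val : {j // j ≠ i} → ι) Subtype.val)⁻¹).trace ≤
      (N⁻¹ * N⁻¹).trace := by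
  have hu : IsUnit N.det := (Matrix.isUnit_iff_isUnit_det _).mp hN.isUnit
  set K := N⁻¹ with hKdef
  have hNK : N * K = 1 := Matrix.mul_nonsing_inv _ hu
  have hK : K.PosDef := hN.inv
  have hKh : Kᵀ = K := by
    have := hK.isHermitian
    rw [Matrix.IsHermitian, conjTranspose_eq_transpose_of_trivial] at this
    exact this
  have hsym : ∀ a b, K a b = K b a := fun a b => by
    conv_lhs => rw [← hKh]
    rfl
  have hii : 0 < K i i := hK.diag_pos
  have hP : (N.submatrix (Subtype.val : {j // j ≠ i} → ι) Subtype.val).PosDef :=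
    hN.submatrix Subtype.val_injective
  -- sums over the subtype
  have hsum := sum_ne i
  set Kr := K.submatrix (Subtype.val : {j // j ≠ i} → ι) Subtype.val with hKr
  set v : {j // j ≠ i} → ℝ := fun j => K j.val i with hv
  set K' : Matrix {j // j ≠ i} {j // j ≠ i} ℝ := Kr - (1 / K i i) • vecMulVec v v with hK'
  have hinv : (N.submatrix (Subtype.val : {j // j ≠ i} → ι) Subtype.val) * K' = 1 := by
    ext j p
    rw [Matrix.mul_apply]
    have e1 : ∀ l : {j // j ≠ i}, (N.submatrix (Subtype.val : {j // j ≠ i} → ι) Subtype.val) j l *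
        K' l p = (fun l : ι => N j.val l * K l p.val - (N j.val l * K l i) * (K p.val i / K i i)) l.val := by
      intro l
      simp only [hK', hKr, hv, Matrix.submatrix_apply, Matrix.sub_apply, Matrix.smul_apply,
        vecMulVec_apply, smul_eq_mul]
      ring
    rw [Finset.sum_congr rfl fun l _ => e1 l]
    refine (hsum (fun l : ι => N j.val l * K l p.val -
      (N j.val l * K l i) * (K p.val i / K i i))).trans ?_
    rw [Finset.sum_sub_distrib, ← Finset.sum_mul]
    have e2 : ∀ a b, ∑ l, N a l * K l b = if a = b then 1 else 0 := by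
      intro a b
      rw [← Matrix.mul_apply, hNK, Matrix.one_apply]
    rw [e2, e2, if_neg j.2, Matrix.one_apply, hsym i p.val]
    have e3 : (if (j : ι) = (p : ι) then (1 : ℝ) else 0) = if j = p then 1 else 0 := by
      simp only [Subtype.ext_iff]
    rw [e3]
    field_simp
    ring
  have hKinv : (N.submatrix (Subtype.val : {j // j ≠ i} → ι) Subtype.val)⁻¹ = K' :=
    Matrix.inv_eq_right_inv hinv
  have hK'pd : K'.PosDef := hKinv ▸ hP.inv
  refine ⟨hP, ?_, ?_⟩
  · rw [hKinv]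
    have e4 : K'.trace = ∑ j : {j // j ≠ i}, (fun l : ι => K l l - K l i * K l i / K i i) j.val := by
      simp only [Matrix.trace, Matrix.diag]
      refine Finset.sum_congr rfl fun j _ => ?_
      simp only [hK', hKr, hv, Matrix.submatrix_apply, Matrix.sub_apply, Matrix.smul_apply,
        vecMulVec_apply, smul_eq_mul]
      ring
    rw [e4]
    refine (hsum (fun l : ι => K l l - K l i * K l i / K i i)).trans ?_
    rw [Finset.sum_sub_distrib, ← Finset.sum_div]
    have e5 : (K * K) i i = ∑ l, K l i * K l i := by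
      rw [Matrix.mul_apply]
      exact Finset.sum_congr rfl fun l _ => by rw [hsym i l]
    rw [e5]
    simp only [Matrix.trace, Matrix.diag]
    field_simp
    ring
  · rw [hKinv]
    have hKrpsd : Kr.PosSemidef := hK.posSemidef.submatrix _
    have hvv : ((1 / K i i) • vecMulVec v v).PosSemidef := by
      have h1 : (vecMulVec v (star v)).PosSemidef := posSemidef_vecMulVec_self_star v
      rw [star_trivial] at h1
      exact h1.smul (by positivity)
    have h1 : (K' * K').trace ≤ (Kr * Kr).trace := by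
      have e : Kr = K' + (1 / K i i) • vecMulVec v v := by rw [hK']; abel
      have h2 := trace_mul_nonneg hKrpsd hvv
      have h3 := trace_mul_nonneg hvv hK'pd.posSemidef
      have e6 : Kr * Kr = Kr * ((1 / K i i) • vecMulVec v v) +
          ((1 / K i i) • vecMulVec v v * K' + K' * K') := by
        have : Kr * Kr = Kr * (K' + (1 / K i i) • vecMulVec v v) := by rw [← e]
        rw [this, Matrix.mul_add]
        nth_rewrite 1 [e]
        rw [Matrix.add_mul]
        abel
      rw [e6, Matrix.trace_add, Matrix.trace_add]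
      linarith
    refine h1.trans ?_
    have e7 : (Kr * Kr).trace = ∑ j : {j // j ≠ i}, ∑ l : {j // j ≠ i}, K j.val l.val ^ 2 := by
      simp only [Matrix.trace, Matrix.diag, Matrix.mul_apply]
      refine Finset.sum_congr rfl fun j _ => Finset.sum_congr rfl fun l _ => ?_
      simp only [hKr, Matrix.submatrix_apply]
      rw [hsym l.val j.val, sq]
    have e8 : (K * K).trace = ∑ j, ∑ l, K j l ^ 2 := by
      simp only [Matrix.trace, Matrix.diag, Matrix.mul_apply]
      refine Finset.sum_congr rfl fun j _ => Finset.sum_congr rfl fun l _ => ?_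
      rw [hsym l j, sq]
    rw [e7, e8]
    have e9 : ∀ j : {j // j ≠ i}, ∑ l : {j // j ≠ i}, K j.val l.val ^ 2 ≤ ∑ l, K j.val l ^ 2 := by
      intro j
      rw [hsum (fun l => K j.val l ^ 2)]
      have := sq_nonneg (K j.val i)
      linarith
    refine (Finset.sum_le_sum fun j _ => e9 j).trans ?_
    rw [hsum (fun j => ∑ l, K j l ^ 2)]
    have : 0 ≤ ∑ l, K i l ^ 2 := Finset.sum_nonneg fun _ _ => sq_nonneg _
    linarith

/-- A good index. -/
lemma exists_index {ι : Type} [Fintype ι] [DecidableEq ι] [Nonempty ι] {K : Matrix ι ι ℝ}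
    (hK : K.PosDef) :
    ∃ i, (K * K).trace / K.trace ≤ (K * K) i i / K i i := by
  have ht : 0 < K.trace := hK.trace_pos
  by_contra hcon
  push Not at hcon
  have h1 : ∀ i, (K * K) i i < (K * K).trace / K.trace * K i i := by
    intro i
    have := hcon i
    rwa [div_lt_iff₀ hK.diag_pos] at this
  have h2 : ∑ i, (K * K) i i < ∑ i, (K * K).trace / K.trace * K i i :=
    Finset.sum_lt_sum_of_nonempty Finset.univ_nonempty fun i _ => h1 i
  rw [← Finset.mul_sum] at h2
  have h3 : ∑ i, K i i = K.trace := rfl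
  have h4 : ∑ i, (K * K) i i = (K * K).trace := rfl
  rw [h3, h4, div_mul_cancel₀ _ ht.ne'] at h2
  exact lt_irrefl _ h2

end Sel

/-- BM-A: selection of a large principal submatrix with a large smallest eigenvalue. -/
theorem selection {ι : Type} [Fintype ι] [DecidableEq ι] (N : Matrix ι ι ℝ) (hN : N.PosDef)
    (Φ : ℝ) (hΦ0 : 0 < Φ) (hΦ : (N⁻¹).trace ≤ Φ) (m : ℕ) :
    ∃ S : Finset ι, Sᶜ.card ≤ m ∧ ∀ t : ι → ℝ, (∀ i ∉ S, t i = 0) →
      (m / (2 * Φ)) * (t ⬝ᵥ t) ≤ t ⬝ᵥ (N *ᵥ t) := by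
  induction m generalizing ι with
  | zero =>
    refine ⟨Finset.univ, by simp, fun t _ => ?_⟩
    have := hN.posSemidef.dotProduct_mulVec_nonneg t
    simpa using this
  | succ m ih =>
    rcases isEmpty_or_nonempty ι with hι | hι
    · refine ⟨Finset.univ, by simp, fun t _ => ?_⟩
      simp [dotProduct]
    · obtain ⟨i, hi⟩ := Sel.exists_index hN.inv
      obtain ⟨hP, htr, htr2⟩ := Sel.remove hN i
      set Ni := N.submatrix (Subtype.val : {j // j ≠ i} → ι) Subtype.val with hNi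
      have hii : 0 < N⁻¹ i i := hN.inv.diag_pos
      have ht : 0 < (N⁻¹).trace := hN.inv.trace_pos
      have hKK : 0 ≤ (N⁻¹ * N⁻¹).trace :=
        Sel.trace_mul_nonneg hN.inv.posSemidef hN.inv.posSemidef
      have hq0 : 0 ≤ (N⁻¹ * N⁻¹).trace / (N⁻¹).trace := by positivity
      have h1 : (Ni⁻¹).trace ≤ Φ := by rw [htr]; linarith
      obtain ⟨hM, hMtr⟩ := Sel.lower hP hΦ0 h1
      have h2 : ((Ni - (1 / (2 * Φ)) • (1 : Matrix _ _ ℝ))⁻¹).trace ≤ Φ := by
        refine hMtr.trans ?_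
        have h3 : 1 / Φ * (Ni⁻¹ * Ni⁻¹).trace ≤ (N⁻¹ * N⁻¹).trace / Φ := by
          rw [one_div_mul_eq_div]
          exact div_le_div_of_nonneg_right htr2 hΦ0.le
        rw [htr]
        -- trace K + trace K^2 / Φ - trace K^2 / trace K ≤ Φ
        have h4 : (N⁻¹).trace - (N⁻¹ * N⁻¹).trace / (N⁻¹).trace + (N⁻¹ * N⁻¹).trace / Φ ≤ Φ := by
          have h5 : (N⁻¹ * N⁻¹).trace / Φ ≤ (N⁻¹ * N⁻¹).trace / (N⁻¹).trace :=
            div_le_div_of_nonneg_left hKK ht hΦ
          linarith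
        linarith
      obtain ⟨S, hS, hS2⟩ := ih _ hM h2
      refine ⟨S.map (Function.Embedding.subtype _), ?_, fun t htS => ?_⟩
      · have : (S.map (Function.Embedding.subtype _))ᶜ ⊆
            insert i (Sᶜ.map (Function.Embedding.subtype _)) := by
          intro j hj
          by_cases hji : j = i
          · subst hji; exact Finset.mem_insert_self _ _
          · refine Finset.mem_insert_of_mem ?_
            rw [Finset.mem_map]
            refine ⟨⟨j, hji⟩, ?_, rfl⟩
            rw [Finset.mem_compl] at hj ⊢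
            intro hmem
            exact hj (Finset.mem_map.mpr ⟨⟨j, hji⟩, hmem, rfl⟩)
        refine (Finset.card_le_card this).trans ((Finset.card_insert_le _ _).trans ?_)
        rw [Finset.card_map]
        omega
      · have hti : t i = 0 := by
          apply htS
          intro hmem
          obtain ⟨a, _, ha⟩ := Finset.mem_map.mp hmem
          exact a.2 ha
        have hsum : ∀ f : ι → ℝ, f i = 0 → ∑ j : {j // j ≠ i}, f j.val = ∑ j, f j := by
          intro f hf
          rw [Sel.sum_ne, hf, sub_zero]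
        set t' : {j // j ≠ i} → ℝ := fun j => t j.val with ht'
        have h5 := hS2 t' (by
          intro j hj
          apply htS
          intro hmem
          obtain ⟨a, ha, hb⟩ := Finset.mem_map.mp hmem
          have : a = j := Subtype.ext hb
          exact hj (this ▸ ha))
        have e1 : t' ⬝ᵥ t' = t ⬝ᵥ t := by
          simp only [dotProduct, ht']
          exact hsum (fun j => t j * t j) (by simp [hti])
        have e2 : t' ⬝ᵥ (Ni *ᵥ t') = t ⬝ᵥ (N *ᵥ t) := by
          simp only [dotProduct, ht', Matrix.mulVec, hNi, Matrix.submatrix_apply]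
          have : ∀ j : {j // j ≠ i}, (t j.val * ∑ l : {j // j ≠ i}, N j.val l.val * t l.val) =
              (fun j : ι => t j * ∑ l, N j l * t l) j.val := by
            intro j
            rw [hsum (fun l => N j.val l * t l) (by simp [hti])]
          rw [Finset.sum_congr rfl fun j _ => this j]
          exact hsum (fun j => t j * ∑ l, N j l * t l) (by simp [hti])
        rw [Matrix.sub_mulVec, Matrix.smul_mulVec, Matrix.one_mulVec, dotProduct_sub,
          dotProduct_smul, smul_eq_mul, e1, e2] at h5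
        push_cast
        have e3 : ((m : ℝ) + 1) / (2 * Φ) = m / (2 * Φ) + 1 / (2 * Φ) := by rw [add_div]
        rw [e3, add_mul]
        linarith

end Pool.Agent.BM
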