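import Pool.Agent.Helper88.BM.Defs

namespace Pool.Agent.BM

open Matrix Module

/-- BM-E: from bodies in position to normed spaces; the position is a hypothesis. -/
theorem exists_equiv_of_position_aux {n : ℕ} (hn : 0 < n) (D : ℝ)
    (hpos : ∀ K : Set (EuclideanSpace ℝ (Fin n)), IsCompact K → Convex ℝ K →
      (∀ z ∈ K, -z ∈ K) → (0 : EuclideanSpace ℝ (Fin n)) ∈ interior K →
      ∃ A : EuclideanSpace ℝ (Fin n) ≃ₗ[ℝ] EuclideanSpace ℝ (Fin n),
        IsPos n ((fun z => A z) '' K))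
    (h : ∀ B : Set (EuclideanSpace ℝ (Fin n)), IsPos n B →
      ∃ y : Fin n → EuclideanSpace ℝ (Fin n), (∀ i, y i ∈ B) ∧
        ∀ z ∈ B, ∃ c : Fin n → ℝ, z = ∑ i, c i • y i ∧ ∑ i, |c i| ≤ D)
    (X : Type) [NormedAddCommGroup X] [NormedSpace ℝ X] (hX : finrank ℝ X = n) :
    ∃ T : X ≃L[ℝ] (Fin n → ℝ),
      ‖(T : X →L[ℝ] (Fin n → ℝ))‖ * ‖(T.symm : (Fin n → ℝ) →L[ℝ] X)‖ ≤ D := by
  have : FiniteDimensional ℝ X := FiniteDimensional.of_finrank_pos (by omega)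
  have hd : finrank ℝ (StrongDual ℝ X) = finrank ℝ (EuclideanSpace ℝ (Fin n)) := by
    have e : (X →ₗ[ℝ] ℝ) ≃ₗ[ℝ] (X →L[ℝ] ℝ) := LinearMap.toContinuousLinearMap
    rw [finrank_euclideanSpace_fin]
    have h1 : finrank ℝ (X →L[ℝ] ℝ) = finrank ℝ (X →ₗ[ℝ] ℝ) := e.symm.finrank_eq
    have h2 : finrank ℝ (X →ₗ[ℝ] ℝ) = finrank ℝ X := Subspace.dual_finrank_eq
    rw [show finrank ℝ (StrongDual ℝ X) = finrank ℝ (X →L[ℝ] ℝ) from rfl, h1, h2, hX]
  have : FiniteDimensional ℝ (StrongDual ℝ X) :=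
    FiniteDimensional.of_finrank_pos (by rw [hd, finrank_euclideanSpace_fin]; exact hn)
  obtain ⟨L0⟩ : Nonempty (StrongDual ℝ X ≃ₗ[ℝ] EuclideanSpace ℝ (Fin n)) :=
    ⟨LinearEquiv.ofFinrankEq _ _ hd⟩
  let L : StrongDual ℝ X ≃L[ℝ] EuclideanSpace ℝ (Fin n) := L0.toContinuousLinearEquiv
  let K : Set (EuclideanSpace ℝ (Fin n)) := L '' Metric.closedBall 0 1
  have hK : IsCompact K := by
    have : ProperSpace (StrongDual ℝ X) := FiniteDimensional.proper ℝ _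
    exact (isCompact_closedBall _ _).image L.continuous
  have hconv : Convex ℝ K := (convex_closedBall _ _).linear_image L0.toLinearMap
  have hsymm : ∀ z ∈ K, -z ∈ K := by
    rintro z ⟨f, hf, rfl⟩
    refine ⟨-f, ?_, map_neg L f⟩
    simpa using hf
  have hint : (0 : EuclideanSpace ℝ (Fin n)) ∈ interior K := by
    have h1 : L '' Metric.ball 0 1 ⊆ interior K := by
      apply interior_maximal
      · exact Set.image_mono Metric.ball_subset_closedBall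
      · exact L.toHomeomorph.isOpenMap _ Metric.isOpen_ball
    exact h1 ⟨0, by simp, map_zero L⟩
  obtain ⟨A, hA⟩ := hpos K hK hconv hsymm hint
  obtain ⟨y, hy, hz⟩ := h _ hA
  have hy' : ∀ i, ∃ f : StrongDual ℝ X, ‖f‖ ≤ 1 ∧ A (L f) = y i := by
    intro i
    obtain ⟨w, ⟨f, hf, rfl⟩, hw⟩ := hy i
    exact ⟨f, by simpa using hf, hw⟩
  choose f hf1 hf2 using hy'
  have key : ∀ g : StrongDual ℝ X, ‖g‖ ≤ 1 → ∃ c : Fin n → ℝ, g = ∑ i, c i • f i ∧
      ∑ i, |c i| ≤ D := by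
    intro g hg
    obtain ⟨c, hc1, hc2⟩ := hz (A (L g)) ⟨L g, ⟨g, by simpa using hg, rfl⟩, rfl⟩
    refine ⟨c, ?_, hc2⟩
    apply L.injective
    apply A.injective
    rw [hc1, map_sum, map_sum]
    refine Finset.sum_congr rfl fun i _ => ?_
    rw [map_smul, map_smul, hf2]
  have hD : 0 ≤ D := by
    obtain ⟨c, -, hc⟩ := key 0 (by simp)
    exact le_trans (Finset.sum_nonneg fun i _ => abs_nonneg _) hc
  let T0 : X →L[ℝ] (Fin n → ℝ) := ContinuousLinearMap.pi f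
  have hT0 : ‖T0‖ ≤ 1 := by
    refine ContinuousLinearMap.opNorm_le_bound _ zero_le_one fun x => ?_
    rw [one_mul, pi_norm_le_iff_of_nonneg (norm_nonneg _)]
    intro i
    calc ‖T0 x i‖ = ‖f i x‖ := rfl
      _ ≤ ‖f i‖ * ‖x‖ := (f i).le_opNorm x
      _ ≤ 1 * ‖x‖ := mul_le_mul_of_nonneg_right (hf1 i) (norm_nonneg _)
      _ = ‖x‖ := one_mul _
  have hlow : ∀ x : X, ‖x‖ ≤ D * ‖T0 x‖ := by
    intro x
    obtain ⟨g, hg1, hg2⟩ := exists_dual_vector'' ℝ x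
    obtain ⟨c, hc1, hc2⟩ := key g hg1
    have h1 : ‖x‖ = ∑ i, c i * f i x := by
      have : g x = ‖x‖ := by simpa using hg2
      rw [← this, hc1]
      simp
    calc ‖x‖ = ∑ i, c i * f i x := h1
      _ ≤ ∑ i, |c i| * ‖T0 x‖ := by
          refine Finset.sum_le_sum fun i _ => ?_
          calc c i * f i x ≤ |c i * f i x| := le_abs_self _
            _ = |c i| * |f i x| := abs_mul _ _
            _ ≤ |c i| * ‖T0 x‖ := by
                refine mul_le_mul_of_nonneg_left ?_ (abs_nonneg _)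
                exact norm_le_pi_norm (T0 x) i
      _ = (∑ i, |c i|) * ‖T0 x‖ := by rw [Finset.sum_mul]
      _ ≤ D * ‖T0 x‖ := mul_le_mul_of_nonneg_right hc2 (norm_nonneg _)
  have hinj : Function.Injective T0.toLinearMap := by
    rw [← LinearMap.ker_eq_bot, LinearMap.ker_eq_bot']
    intro x hx
    have h1 := hlow x
    have h2 : T0 x = 0 := hx
    rw [h2, norm_zero, mul_zero] at h1
    exact norm_le_zero_iff.1 h1
  have hfr : finrank ℝ X = finrank ℝ (Fin n → ℝ) := by simp [hX]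
  let T1 : X ≃ₗ[ℝ] (Fin n → ℝ) := LinearMap.linearEquivOfInjective T0.toLinearMap hinj hfr
  let T : X ≃L[ℝ] (Fin n → ℝ) := T1.toContinuousLinearEquiv
  have hTT : ∀ x, T x = T0 x := fun x => rfl
  have e1 : (T : X →L[ℝ] (Fin n → ℝ)) = T0 := by ext x; rfl
  refine ⟨T, ?_⟩
  rw [e1]
  have e2 : ‖(T.symm : (Fin n → ℝ) →L[ℝ] X)‖ ≤ D := by
    refine ContinuousLinearMap.opNorm_le_bound _ hD fun v => ?_
    have := hlow (T.symm v)
    rw [← hTT, T.apply_symm_apply] at this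
    exact this
  calc ‖T0‖ * ‖(T.symm : (Fin n → ℝ) →L[ℝ] X)‖ ≤ 1 * D :=
        mul_le_mul hT0 e2 (norm_nonneg _) zero_le_one
    _ = D := one_mul _

end Pool.Agent.BM
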