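import Pool.Agent.Helper88.BM.Position
import Pool.Agent.Helper88.BM.SpacesAux

namespace Pool.Agent.BM

open Matrix Module

/-- BM-E: from bodies in position to normed spaces. -/
theorem exists_equiv_of_position {n : ℕ} (hn : 0 < n) (D : ℝ)
    (h : ∀ B : Set (EuclideanSpace ℝ (Fin n)), IsPos n B →
      ∃ y : Fin n → EuclideanSpace ℝ (Fin n), (∀ i, y i ∈ B) ∧
        ∀ z ∈ B, ∃ c : Fin n → ℝ, z = ∑ i, c i • y i ∧ ∑ i, |c i| ≤ D)
    (X : Type) [NormedAddCommGroup X] [NormedSpace ℝ X] (hX : finrank ℝ X = n) :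
    ∃ T : X ≃L[ℝ] (Fin n → ℝ),
      ‖(T : X →L[ℝ] (Fin n → ℝ))‖ * ‖(T.symm : (Fin n → ℝ) →L[ℝ] X)‖ ≤ D :=
  exists_equiv_of_position_aux hn D (fun K h1 h2 h3 h4 => exists_position n hn K h1 h2 h3 h4) h X hX

end Pool.Agent.BM
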