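import Mathlib

/-!
# Singular value decomposition of a square family of vectors
-/

namespace Pool.Agent.BM

open Matrix Module

theorem sum_coord_mul {n : ℕ} (v : OrthonormalBasis (Fin n) ℝ (EuclideanSpace ℝ (Fin n)))
    (j k : Fin n) : ∑ i, v j i * v k i = if j = k then 1 else 0 := by
  have h := orthonormal_iff_ite.mp v.orthonormal j k
  rw [← h, PiLp.inner_apply]
  refine Finset.sum_congr rfl fun i _ => ?_
  simp [mul_comm]

theorem sum_coord_mul' {n : ℕ} (v : OrthonormalBasis (Fin n) ℝ (EuclideanSpace ℝ (Fin n)))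
    (i k : Fin n) : ∑ j, v j i * v j k = if i = k then 1 else 0 := by
  have h := v.sum_inner_mul_inner (EuclideanSpace.single i (1 : ℝ))
    (EuclideanSpace.single k (1 : ℝ))
  have h2 : inner ℝ (EuclideanSpace.single i (1 : ℝ)) (EuclideanSpace.single k (1 : ℝ)) =
      if i = k then (1 : ℝ) else 0 := by
    simp [EuclideanSpace.inner_single_left, PiLp.single_apply]
  rw [← h2, ← h]
  refine Finset.sum_congr rfl fun j _ => ?_
  simp [EuclideanSpace.inner_single_left, EuclideanSpace.inner_single_right]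

/-- Singular value decomposition, in vector form. -/
theorem svd {n : ℕ} (x : Fin n → EuclideanSpace ℝ (Fin n)) :
    ∃ (v w : OrthonormalBasis (Fin n) ℝ (EuclideanSpace ℝ (Fin n))) (s : Fin n → ℝ),
      (∀ j, 0 ≤ s j) ∧ ∀ i, x i = ∑ j, (s j * v j i) • w j := by
  have hM := isHermitian_gram ℝ x
  set v := hM.eigenvectorBasis with hv
  set μ := hM.eigenvalues with hμ
  have hμ0 : ∀ j, 0 ≤ μ j := fun j => (posSemidef_gram ℝ x).eigenvalues_nonneg j
  set u : Fin n → EuclideanSpace ℝ (Fin n) := fun j => ∑ i, v j i • x i with hu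
  have huu : ∀ j k, inner ℝ (u j) (u k) = if j = k then μ j else 0 := by
    intro j k
    have h1 := star_dotProduct_gram_mulVec (𝕜 := ℝ) x (fun i => v j i) (fun i => v k i)
    have h2 := hM.mulVec_eigenvectorBasis k
    have h3 : gram ℝ x *ᵥ (fun i => v k i) = fun i => μ k * v k i := by
      rw [← hv, ← hμ] at h2
      have h4 : (fun i => v k i) = (v k).ofLp := rfl
      rw [h4, h2]
      rfl
    rw [h3] at h1
    have h5 : inner ℝ (u j) (u k) = ∑ i, v j i * (μ k * v k i) := by
      rw [← h1]
      simp [dotProduct]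
    rw [h5]
    have h6 : ∑ i, v j i * (μ k * v k i) = μ k * ∑ i, v j i * v k i := by
      rw [Finset.mul_sum]
      exact Finset.sum_congr rfl fun i _ => by ring
    rw [h6, sum_coord_mul]
    by_cases hjk : j = k
    · simp [hjk]
    · simp [hjk]
  set s : Fin n → ℝ := fun j => Real.sqrt (μ j) with hs
  have hss : ∀ j, s j * s j = μ j := fun j => Real.mul_self_sqrt (hμ0 j)
  let J : Set (Fin n) := {j | μ j ≠ 0}
  have hsj : ∀ j ∈ J, s j ≠ 0 := by
    intro j hj h0
    have h1 := hss j
    rw [h0] at h1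
    exact hj (by rw [← h1]; ring)
  have horth : Orthonormal ℝ (J.domRestrict fun j => (s j)⁻¹ • u j) := by
    rw [orthonormal_iff_ite]
    rintro ⟨j, hj⟩ ⟨k, hk⟩
    change inner ℝ ((s j)⁻¹ • u j) ((s k)⁻¹ • u k) = _
    rw [real_inner_smul_left, real_inner_smul_right, huu]
    by_cases hjk : j = k
    · subst hjk
      simp only [if_true]
      rw [← hss j]
      have := hsj j hj
      field_simp
    · have h2 : (⟨j, hj⟩ : J) ≠ ⟨k, hk⟩ := fun h => hjk (Subtype.mk.inj h)
      rw [if_neg hjk, if_neg h2, mul_zero, mul_zero]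
  obtain ⟨w, hw⟩ := horth.exists_orthonormalBasis_extension_of_card_eq
    (by simp)
  have huw : ∀ j, u j = s j • w j := by
    intro j
    by_cases hj : μ j = 0
    · have h1 := huu j j
      simp only [if_true, hj] at h1
      rw [inner_self_eq_zero] at h1
      have h2 : s j = 0 := by simp [hs, hj]
      rw [h1, h2, zero_smul]
    · have h1 := hw j hj
      rw [h1, smul_smul]
      rw [mul_inv_cancel₀ (hsj j hj), one_smul]
  refine ⟨v, w, s, fun j => Real.sqrt_nonneg _, fun i => ?_⟩
  have h1 : ∑ j, (s j * v j i) • w j = ∑ j, v j i • u j := by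
    refine Finset.sum_congr rfl fun j _ => ?_
    rw [huw j, smul_smul, mul_comm]
  rw [h1]
  have h2 : ∑ j, v j i • u j = ∑ k, (∑ j, v j i * v j k) • x k := by
    simp only [hu, Finset.smul_sum, smul_smul, Finset.sum_smul]
    exact Finset.sum_comm
  rw [h2]
  simp [sum_coord_mul']

end Pool.Agent.BM
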