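import Pool.Agent.Helper88.BM.Defs

/-!
# Volume maximisers: the two exchange inequalities
-/

namespace Pool.Agent.BM

open Matrix Module

section Gram

variable {E : Type*} [NormedAddCommGroup E] [InnerProductSpace ℝ E]

/-- The diagonal entries of the inverse of a Gram matrix. -/
theorem gram_inv_diag {k : ℕ} (x : Fin (k + 1) → E) (p : Fin (k + 1)) :
    (gram ℝ x)⁻¹ p p = (gram ℝ (fun j => x (p.succAbove j))).det / (gram ℝ x).det := by
  rw [Matrix.inv_def, Matrix.smul_apply, Matrix.adjugate_fin_succ_eq_det_submatrix,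
    Ring.inverse_eq_inv', smul_eq_mul]
  have h1 : ((-1 : ℝ)) ^ ((p : ℕ) + (p : ℕ)) = 1 := by
    rw [← two_mul, pow_mul]; norm_num
  rw [h1, one_mul, mul_comm, div_eq_mul_inv]
  rfl

/-- Gram determinants are nonnegative. -/
theorem gram_det_nonneg {k : ℕ} (x : Fin k → E) : 0 ≤ (gram ℝ x).det :=
  (Matrix.posSemidef_gram ℝ x).det_nonneg

/-- Lemma G: replacing the vector number `p` by its part orthogonal to `F`. -/
theorem gram_det_ge {k : ℕ} (x : Fin (k + 1) → E) (p : Fin (k + 1)) (F : Submodule ℝ E)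
    [F.HasOrthogonalProjection] (hF : ∀ j, x (p.succAbove j) ∈ Fᗮ) :
    ‖F.starProjection (x p)‖ ^ 2 * (gram ℝ (fun j => x (p.succAbove j))).det ≤
      (gram ℝ x).det := by
  set a : E := F.starProjection (x p) with ha
  set b : E := x p - a with hb
  have haF : a ∈ F := by rw [ha]; exact Submodule.starProjection_apply_mem _ _
  have hbF : b ∈ Fᗮ := by
    rw [hb, ha]; exact Submodule.sub_starProjection_mem_orthogonal _
  have hab : x p = a + b := by rw [hb]; abel
  set x' : Fin (k + 1) → E := Function.update x p b with hx'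
  have h0 : inner ℝ a b = 0 := hbF a haF
  have h0' : inner ℝ b a = 0 := by rw [real_inner_comm]; exact h0
  have hx'p : x' p = b := by rw [hx']; simp
  have hx'j : ∀ j, j ≠ p → x' j = x j := fun j hj => by rw [hx']; simp [hj]
  have hxj : ∀ j, j ≠ p → inner ℝ a (x j) = 0 := by
    intro j hj
    obtain ⟨i, rfl⟩ := Fin.exists_succAbove_eq hj
    exact (hF i) a haF
  have hkey : gram ℝ x = (gram ℝ x').updateRow p
      ((gram ℝ x') p + (‖a‖ ^ 2) • (Pi.single p (1 : ℝ))) := by
    ext i j
    by_cases hi : i = p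
    · subst hi
      rw [Matrix.updateRow_self]
      by_cases hj : j = i
      · subst hj
        simp only [Matrix.gram_apply, Pi.add_apply, Pi.smul_apply, Pi.single_eq_same, hx'p,
          smul_eq_mul, mul_one]
        rw [hab, inner_add_left, inner_add_right, inner_add_right, h0, h0',
          real_inner_self_eq_norm_sq]
        ring
      · simp only [Matrix.gram_apply, Pi.add_apply, Pi.smul_apply, hx'p, smul_eq_mul]
        rw [hx'j j hj, Pi.single_eq_of_ne hj, mul_zero, add_zero, hab, inner_add_left, hxj j hj,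
          zero_add]
    · rw [Matrix.updateRow_ne hi]
      by_cases hj : j = p
      · subst hj
        simp only [Matrix.gram_apply, hx'p, hx'j i hi]
        rw [hab, inner_add_right, real_inner_comm, hxj i hi, zero_add]
      · simp only [Matrix.gram_apply, hx'j i hi, hx'j j hj]
  have hsub : (fun j => x' (p.succAbove j)) = fun j => x (p.succAbove j) := by
    funext j
    exact hx'j _ (Fin.succAbove_ne p j)
  have hdet : (gram ℝ x).det = (gram ℝ x').det +
      ‖a‖ ^ 2 * (gram ℝ (fun j => x (p.succAbove j))).det := by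
    rw [hkey, Matrix.det_updateRow_add, Matrix.updateRow_eq_self, Matrix.det_updateRow_smul,
      ← Matrix.adjugate_apply, Matrix.adjugate_fin_succ_eq_det_submatrix]
    have h1 : ((-1 : ℝ)) ^ ((p : ℕ) + (p : ℕ)) = 1 := by
      rw [← two_mul, pow_mul]; norm_num
    rw [h1, one_mul, ← hsub]
    rfl
  rw [hdet]
  have := gram_det_nonneg x'
  linarith

end Gram

/-- BM-C2 -/
theorem IsMaxVol.swap {n : ℕ} {B : Set (EuclideanSpace ℝ (Fin n))} (hB : IsPos n B)
    {k : ℕ} (hk : k ≤ n) {x : Fin k → EuclideanSpace ℝ (Fin n)} (hx : IsMaxVol B k x)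
    {z : EuclideanSpace ℝ (Fin n)} (hz : z ∈ B) (i : Fin k) :
    ‖(Submodule.span ℝ (Set.range x))ᗮ.starProjection z‖ ^ 2 * (gram ℝ x)⁻¹ i i ≤ 1 := by
  cases k with
  | zero => exact i.elim0
  | succ k =>
    rw [gram_inv_diag, mul_div_assoc']
    refine div_le_one_of_le₀ ?_ (gram_det_nonneg x)
    set y := Function.update x i z with hy
    have hyi : y i = z := by rw [hy]; simp
    have hyj : ∀ j, y (i.succAbove j) = x (i.succAbove j) := fun j => by
      rw [hy]; simp [Fin.succAbove_ne i j]
    have h1 := gram_det_ge y i (Submodule.span ℝ (Set.range x))ᗮ (fun j => by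
      rw [hyj, Submodule.orthogonal_orthogonal]
      exact Submodule.subset_span ⟨_, rfl⟩)
    rw [hyi] at h1
    simp only [hyj] at h1
    refine h1.trans (hx.max y fun j => ?_)
    by_cases hj : j = i
    · subst hj; rw [hyi]; exact hz
    · rw [hy, Function.update_of_ne hj]; exact hx.mem j

/-- BM-C3 -/
theorem IsMaxVol.next {n : ℕ} {B : Set (EuclideanSpace ℝ (Fin n))} (hB : IsPos n B)
    {k : ℕ} (hk : k + 1 ≤ n) {x : Fin k → EuclideanSpace ℝ (Fin n)} (hx : IsMaxVol B k x)
    {y : Fin (k + 1) → EuclideanSpace ℝ (Fin n)} (hy : IsMaxVol B (k + 1) y)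
    {z : EuclideanSpace ℝ (Fin n)} (hz : z ∈ B) (i : Fin (k + 1)) :
    ‖(Submodule.span ℝ (Set.range x))ᗮ.starProjection z‖ ^ 2 * (gram ℝ y)⁻¹ i i ≤ 1 := by
  rw [gram_inv_diag, mul_div_assoc']
  refine div_le_one_of_le₀ ?_ (gram_det_nonneg y)
  set w : Fin (k + 1) → EuclideanSpace ℝ (Fin n) := Fin.snoc x z with hw
  have hwl : w (Fin.last k) = z := by rw [hw]; simp
  have hwj : ∀ j, w ((Fin.last k).succAbove j) = x j := fun j => by
    rw [hw, Fin.succAbove_last]; simp
  have h1 := gram_det_ge w (Fin.last k) (Submodule.span ℝ (Set.range x))ᗮ (fun j => by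
    rw [hwj, Submodule.orthogonal_orthogonal]
    exact Submodule.subset_span ⟨_, rfl⟩)
  rw [hwl] at h1
  simp only [hwj] at h1
  have h2 : (gram ℝ w).det ≤ (gram ℝ y).det := by
    refine hy.max w fun j => ?_
    refine Fin.lastCases ?_ (fun j => ?_) j
    · rw [hwl]; exact hz
    · have := hwj j
      rw [Fin.succAbove_last] at this
      rw [this]; exact hx.mem j
  have h3 : (gram ℝ (fun j => y (i.succAbove j))).det ≤ (gram ℝ x).det :=
    hx.max _ fun j => hy.mem _
  calc _ ≤ ‖(Submodule.span ℝ (Set.range x))ᗮ.starProjection z‖ ^ 2 * (gram ℝ x).det :=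
        mul_le_mul_of_nonneg_left h3 (sq_nonneg _)
    _ ≤ _ := h1
    _ ≤ _ := h2

end Pool.Agent.BM
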